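import Pool.Agent.TH915.PW.Digits

set_option autoImplicit false

/-! Finite automata reading digits: transition maps, exponential sums, special functions. -/

namespace Pool.Agent.U602.AU

open Finset Filter
open Pool.Agent.H469R2.NK (e norm_e e_add e_zero)
open Pool.Agent.TH915.PW (e_int e_natmul continuous_e)

/-- `T b δ L m x` is the state reached from `x` after reading the `L` lowest digits of `m` in base
`b`, the highest of them first. -/
def T {Q : Type} (b : ℕ) (δ : ℕ → Q → Q) : ℕ → ℕ → Q → Q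
  | 0, _, x => x
  | L + 1, m, x => δ (m % b) (T b δ L (m / b) x)

section

variable {Q : Type} {b : ℕ} {δ : ℕ → Q → Q}

lemma T_zero (m : ℕ) (x : Q) : T b δ 0 m x = x := rfl

lemma T_succ (L m : ℕ) (x : Q) : T b δ (L + 1) m x = δ (m % b) (T b δ L (m / b) x) := rfl

lemma T_succ' (L m d : ℕ) (hd : d < b) (x : Q) :
    T b δ (L + 1) (b * m + d) x = δ d (T b δ L m x) := by
  rw [T_succ, Nat.mul_add_mod, Nat.mod_eq_of_lt hd, Nat.mul_add_div (by omega),
    Nat.div_eq_of_lt hd, add_zero]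

lemma T_add (hb : 0 < b) (L K m r : ℕ) (hr : r < b ^ K) (x : Q) :
    T b δ (L + K) (b ^ K * m + r) x = T b δ K r (T b δ L m x) := by
  induction K generalizing r with
  | zero =>
    have : r = 0 := by simpa using hr
    subst this
    simp [T_zero]
  | succ K ih =>
    have h1 : (b ^ (K + 1) * m + r) % b = r % b := by
      rw [pow_succ', mul_assoc, Nat.mul_add_mod]
    have h2 : (b ^ (K + 1) * m + r) / b = b ^ K * m + r / b := by
      rw [pow_succ', mul_assoc, Nat.mul_add_div hb]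
    rw [← add_assoc, T_succ, h1, h2, T_succ, ih (r / b)]
    rw [Nat.div_lt_iff_lt_mul hb]
    rwa [pow_succ] at hr

lemma T_one (d : ℕ) (hd : d < b) (x : Q) : T b δ 1 d x = δ d x := by
  have := T_succ' (δ := δ) 0 0 d hd x
  simpa [T_zero] using this

lemma T_mod (L m : ℕ) (x : Q) : T b δ L (m % b ^ L) x = T b δ L m x := by
  induction L generalizing m with
  | zero => rfl
  | succ L ih =>
    rw [T_succ, T_succ, ← ih (m / b), pow_succ', Nat.mod_mul_right_div_self,
      Nat.mod_mul_right_mod]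

end

lemma sum_range_mul {M : Type} [AddCommMonoid M] (A B : ℕ) (f : ℕ → M) :
    ∑ n ∈ range (A * B), f n = ∑ i ∈ range A, ∑ j ∈ range B, f (B * i + j) := by
  induction A with
  | zero => simp
  | succ A ih =>
    rw [add_mul, one_mul, sum_range_add, ih, sum_range_succ, mul_comm A B]

section

variable {Q : Type} (b : ℕ) (δ : ℕ → Q → Q)

/-- the exponential sums -/
noncomputable def W (L : ℕ) (θ : ℝ) : (Q → ℂ) →ₗ[ℂ] (Q → ℂ) where
  toFun φ := fun x => ∑ m ∈ range (b ^ L), e (m * θ) * φ (T b δ L m x)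
  map_add' φ ψ := by
    ext x
    simp only [Pi.add_apply, mul_add, sum_add_distrib]
  map_smul' c φ := by
    ext x
    simp only [Pi.smul_apply, smul_eq_mul, RingHom.id_apply, mul_sum]
    refine sum_congr rfl fun m _ => ?_
    ring

variable {b δ}

lemma W_apply (L : ℕ) (θ : ℝ) (φ : Q → ℂ) (x : Q) :
    W b δ L θ φ x = ∑ m ∈ range (b ^ L), e (m * θ) * φ (T b δ L m x) := rfl

lemma W_add (hb : 0 < b) (L K : ℕ) (θ : ℝ) (φ : Q → ℂ) :
    W b δ (L + K) θ φ = W b δ L (b ^ K * θ) (W b δ K θ φ) := by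
  ext x
  rw [W_apply, W_apply, pow_add, sum_range_mul]
  refine sum_congr rfl fun i _ => ?_
  rw [W_apply, mul_sum]
  refine sum_congr rfl fun j hj => ?_
  rw [T_add hb L K i j (mem_range.1 hj) x, ← mul_assoc, ← e_add]
  congr 2
  push_cast
  ring

/-- functions which behave like a character of frequency `-θ` -/
def Sp (b : ℕ) (δ : ℕ → Q → Q) (θ : ℝ) : Submodule ℂ (Q → ℂ) where
  carrier := {φ | ∀ (K : ℕ) (x : Q) (m : ℕ), m < b ^ K →
    e (m * θ) * φ (T b δ K m x) = φ (T b δ K 0 x)}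
  add_mem' := by
    intro φ ψ hφ hψ K x m hm
    simp only [Pi.add_apply, mul_add, hφ K x m hm, hψ K x m hm]
  zero_mem' := by
    intro K x m hm
    simp
  smul_mem' := by
    intro c φ hφ K x m hm
    simp only [Pi.smul_apply, smul_eq_mul]
    rw [← hφ K x m hm]
    ring

lemma mem_Sp {θ : ℝ} {φ : Q → ℂ} : φ ∈ Sp b δ θ ↔ ∀ (K : ℕ) (x : Q) (m : ℕ), m < b ^ K →
    e (m * θ) * φ (T b δ K m x) = φ (T b δ K 0 x) := Iff.rfl

/-- the sum of the spaces of special functions -/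
def SS (b : ℕ) (δ : ℕ → Q → Q) : Submodule ℂ (Q → ℂ) := ⨆ θ : ℝ, Sp b δ θ

lemma e_mul_neg (x : ℝ) : e x * e (-x) = 1 := by
  rw [← e_add, add_neg_cancel, e_zero]

lemma W_Sp {θ₀ : ℝ} {φ : Q → ℂ} (hφ : φ ∈ Sp b δ θ₀) (L : ℕ) (θ : ℝ) :
    W b δ L θ φ = (∑ m ∈ range (b ^ L), e (m * (θ - θ₀))) • (fun x => φ (T b δ L 0 x)) := by
  ext x
  rw [W_apply, Pi.smul_apply, smul_eq_mul, sum_mul]
  refine sum_congr rfl fun m hm => ?_
  rw [← hφ L x m (mem_range.1 hm), ← mul_assoc, ← e_add]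
  congr 2
  ring

lemma shift_Sp (hb : 0 < b) {θ₀ : ℝ} {φ : Q → ℂ} (hφ : φ ∈ Sp b δ θ₀) (L : ℕ) :
    (fun x => φ (T b δ L 0 x)) ∈ Sp b δ (b ^ L * θ₀) := by
  intro K x m hm
  have hbL : 0 < b ^ L := pow_pos hb L
  have h1 := T_add (δ := δ) hb K L m 0 hbL x
  have h2 := T_add (δ := δ) hb K L 0 0 hbL x
  have h3 : b ^ L * m + 0 < b ^ (K + L) := by
    rw [pow_add, mul_comm, add_zero]
    exact (Nat.mul_lt_mul_right hbL).mpr hm
  have h4 := hφ (K + L) x (b ^ L * m + 0) h3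
  rw [h1] at h4
  have h5 : T b δ (K + L) 0 x = T b δ L 0 (T b δ K 0 x) := by
    rw [← h2]
    simp
  rw [h5] at h4
  beta_reduce
  rw [← h4]
  congr 2
  push_cast
  ring

lemma W_SS (hb : 0 < b) {φ : Q → ℂ} (hφ : φ ∈ SS b δ) (L : ℕ) (θ : ℝ) :
    W b δ L θ φ ∈ SS b δ := by
  have h : SS b δ ≤ (SS b δ).comap (W b δ L θ) := by
    apply iSup_le
    intro θ₀ ψ hψ
    rw [Submodule.mem_comap, W_Sp hψ]
    apply Submodule.smul_mem
    exact Submodule.mem_iSup_of_mem _ (shift_Sp hb hψ L)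
  exact h hφ

end

end Pool.Agent.U602.AU
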