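import Pool.Agent.U602.AU.Contr

set_option autoImplicit false
set_option linter.unusedSectionVars false

/-! The exponential sums of an automaton at rationals with large denominators. -/

namespace Pool.Agent.U602.AU

open Finset Filter Topology
open Pool.Agent.H469R2.NK (e norm_e e_add e_zero)
open Pool.Agent.TH915.PW (e_int e_natmul continuous_e)

lemma e_eq_one {x : ℝ} (h : e x = 1) : ∃ n : ℤ, x = n := by
  unfold Pool.Agent.H469R2.NK.e at h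
  rw [Complex.exp_eq_one_iff] at h
  obtain ⟨n, hn⟩ := h
  refine ⟨n, ?_⟩
  have h2 : (2 * Real.pi * Complex.I : ℂ) ≠ 0 := Complex.two_pi_I_ne_zero
  have h3 : ((x : ℂ) - n) * (2 * Real.pi * Complex.I) = 0 := by
    push_cast at hn
    linear_combination hn
  rcases mul_eq_zero.1 h3 with h4 | h4
  · have h5 : (x : ℂ) = (n : ℝ) := by
      push_cast
      linear_combination h4
    exact_mod_cast h5
  · exact absurd h4 h2

/-- geometric sums of roots of unity -/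
lemma geom_bound (R : ℕ) (hR : 0 < R) (α : ℝ) (z : ℤ) (hz : (R : ℝ) * α = z)
    (hα : ∀ n : ℤ, α ≠ n) (N : ℕ) : ‖∑ m ∈ range N, e (m * α)‖ ≤ R := by
  have h1 : e α ≠ 1 := by
    intro h
    obtain ⟨n, hn⟩ := e_eq_one h
    exact hα n hn
  have h2 : e α ^ R = 1 := by
    rw [← e_natmul, hz, e_int]
  have h3 : ∀ M : ℕ, ∑ m ∈ range M, e (m * α) = (e α ^ M - 1) / (e α - 1) := by
    intro M
    rw [eq_div_iff (sub_ne_zero.2 h1), ← geom_sum_mul]
    congr 1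
    exact sum_congr rfl fun m _ => e_natmul m α
  have h4 : ∑ m ∈ range N, e (m * α) = ∑ m ∈ range (N % R), e (m * α) := by
    rw [h3, h3]
    congr 2
    conv_lhs => rw [← Nat.mod_add_div N R]
    rw [pow_add, pow_mul, h2, one_pow, mul_one]
  rw [h4]
  refine (norm_sum_le _ _).trans ?_
  have h5 : ∑ m ∈ range (N % R), ‖e (m * α)‖ = ((N % R : ℕ) : ℝ) := by
    simp [norm_e]
  rw [h5]
  exact_mod_cast (Nat.mod_lt N hR).le

section

variable {Q : Type} [Fintype Q] {b : ℕ} {δ : ℕ → Q → Q}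

/-- the frequencies of special functions have small denominators -/
lemma Sp_rational (hb : 2 ≤ b) (hfull : ∀ x z : Q, ∃ d < b, δ d x = z) {θ₀ : ℝ} {φ : Q → ℂ}
    (hφ : φ ∈ Sp b δ θ₀) (hφ0 : φ ≠ 0) :
    ∃ q₀ : ℕ, 1 ≤ q₀ ∧ q₀ ≤ Fintype.card Q ∧ ∃ z : ℤ, (q₀ : ℝ) * θ₀ = z := by
  obtain ⟨w, hw⟩ := Function.ne_iff.1 hφ0
  have hcard : 0 < Fintype.card Q := Fintype.card_pos_iff.2 ⟨w⟩
  obtain ⟨K', hK'⟩ : ∃ K', Fintype.card Q = K' + 1 := ⟨Fintype.card Q - 1, by omega⟩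
  have hpow : Fintype.card Q < b ^ Fintype.card Q := Nat.lt_pow_self (by omega)
  obtain ⟨d, hd, hdw⟩ := hfull (T b δ K' 0 w) w
  have h1 : T b δ (Fintype.card Q) (b * 0 + d) w = w := by
    rw [hK', T_succ' K' 0 d hd, hdw]
  have hc : φ (T b δ (Fintype.card Q) 0 w) ≠ 0 := by
    have h2 := hφ (Fintype.card Q) w (b * 0 + d) (by
      have : b ^ 1 ≤ b ^ Fintype.card Q := Nat.pow_le_pow_right (by omega) hcard
      rw [pow_one] at this
      omega)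
    rw [h1] at h2
    rw [← h2]
    apply mul_ne_zero _ hw
    intro h3
    have := norm_e (((b * 0 + d : ℕ) : ℝ) * θ₀)
    rw [h3, norm_zero] at this
    exact zero_ne_one this
  obtain ⟨i, j, hij, hT⟩ := Fintype.exists_ne_map_eq_of_card_lt
    (fun i : Fin (Fintype.card Q + 1) => T b δ (Fintype.card Q) i w) (by simp)
  -- order
  have main : ∀ i j : ℕ, i < j → j ≤ Fintype.card Q →
      T b δ (Fintype.card Q) i w = T b δ (Fintype.card Q) j w →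
      ∃ q₀ : ℕ, 1 ≤ q₀ ∧ q₀ ≤ Fintype.card Q ∧ ∃ z : ℤ, (q₀ : ℝ) * θ₀ = z := by
    intro i j hij hj hT
    have h2 := hφ (Fintype.card Q) w i (by omega)
    have h3 := hφ (Fintype.card Q) w j (by omega)
    rw [← hT] at h3
    have h4 : φ (T b δ (Fintype.card Q) i w) ≠ 0 := by
      intro h5
      rw [h5, mul_zero] at h2
      exact hc h2.symm
    have h5 : e (i * θ₀) = e (j * θ₀) := mul_right_cancel₀ h4 (h2.trans h3.symm)
    have h6 : e (((j - i : ℕ) : ℝ) * θ₀) = 1 := by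
      have h7 : (j : ℝ) * θ₀ = i * θ₀ + ((j - i : ℕ) : ℝ) * θ₀ := by
        rw [Nat.cast_sub hij.le]; ring
      rw [h7, e_add] at h5
      have h8 : e (i * θ₀) ≠ 0 := by
        intro h9
        have := norm_e ((i : ℝ) * θ₀)
        rw [h9, norm_zero] at this
        exact zero_ne_one this
      have h10 : e (i * θ₀) * 1 = e (i * θ₀) * e (((j - i : ℕ) : ℝ) * θ₀) := by
        rw [mul_one]; exact h5
      exact (mul_left_cancel₀ h8 h10).symm
    exact ⟨j - i, by omega, by omega, e_eq_one h6⟩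
  rcases lt_or_gt_of_ne (fun h => hij (Fin.ext h)) with h | h
  · exact main i j h (by omega) hT
  · exact main j i h (by omega) hT.symm

/-- the exponential sums of sums of special functions -/
lemma SS_bound (hb : 2 ≤ b) (hfull : ∀ x z : Q, ∃ d < b, δ d x = z) :
    ∃ C : ℝ, 0 < C ∧ ∀ s ∈ SS b δ, ∀ (L : ℕ) (θ R : ℝ), 0 ≤ R →
      (∀ (θ₀ : ℝ) (q₀ : ℕ) (z : ℤ), 1 ≤ q₀ → q₀ ≤ Fintype.card Q → (q₀ : ℝ) * θ₀ = z →
        ∀ N : ℕ, ‖∑ m ∈ range N, e (m * (θ - θ₀))‖ ≤ R) →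
      ‖W b δ L θ s‖ ≤ C * R * ‖s‖ := by
  set U : Set (Q → ℂ) := ⋃ θ : ℝ, (Sp b δ θ : Set (Q → ℂ)) with hU
  have hspan : Submodule.span ℂ U = SS b δ := by
    rw [hU, Submodule.span_iUnion]
    unfold SS
    congr 1
    ext1 θ
    exact Submodule.span_eq _
  obtain ⟨B, hBU, hBspan, hBli⟩ := exists_linearIndependent ℂ U
  have hfin : Finite B := hBli.finite
  have := Fintype.ofFinite B
  have hr : Submodule.span ℂ (Set.range (Subtype.val : B → (Q → ℂ))) = SS b δ := by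
    rw [Subtype.range_coe, hBspan, hspan]
  set bs : Module.Basis B ℂ (Submodule.span ℂ (Set.range (Subtype.val : B → (Q → ℂ)))) :=
    Module.Basis.span hBli with hbs
  -- the coordinates are bounded
  have hcoord : ∀ i : B, ∃ C : ℝ, 0 ≤ C ∧
      ∀ s : Submodule.span ℂ (Set.range (Subtype.val : B → (Q → ℂ))), ‖bs.repr s i‖ ≤ C * ‖s‖ := by
    intro i
    set f := LinearMap.toContinuousLinearMap (bs.coord i) with hf
    refine ⟨‖f‖, f.opNorm_nonneg, ?_⟩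
    intro s
    have := f.le_opNorm s
    simpa [hf] using this
  choose Cc hCc0 hCc using hcoord
  set C : ℝ := ∑ i : B, Cc i * ‖(i : Q → ℂ)‖ + 1 with hC
  have hC0 : 0 ≤ ∑ i : B, Cc i * ‖(i : Q → ℂ)‖ :=
    sum_nonneg fun i _ => mul_nonneg (hCc0 i) (norm_nonneg _)
  refine ⟨C, by linarith, ?_⟩
  intro s hs L θ R hR0 hR
  rw [← hr] at hs
  have h1 : s = ∑ i : B, bs.repr ⟨s, hs⟩ i • (i : Q → ℂ) := by
    have h2 := bs.sum_repr ⟨s, hs⟩
    have h3 := congrArg Subtype.val h2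
    refine h3.symm.trans ?_
    simp only [AddSubmonoidClass.coe_finsetSum, SetLike.val_smul]
    refine sum_congr rfl fun i _ => ?_
    rw [hbs, Module.Basis.span_apply]
  have h2 : ∀ i : B, ‖W b δ L θ (i : Q → ℂ)‖ ≤ R * ‖(i : Q → ℂ)‖ := by
    intro i
    obtain ⟨θ₀, hi⟩ := Set.mem_iUnion.1 (hBU i.2)
    have hi0 : (i : Q → ℂ) ≠ 0 := hBli.ne_zero i
    obtain ⟨q₀, hq1, hq2, z, hz⟩ := Sp_rational hb hfull hi hi0
    rw [W_Sp hi, norm_smul]
    apply mul_le_mul (hR θ₀ q₀ z hq1 hq2 hz _) _ (norm_nonneg _) hR0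
    rw [pi_norm_le_iff_of_nonneg (norm_nonneg _)]
    intro x
    exact norm_le_pi_norm _ _
  calc ‖W b δ L θ s‖ = ‖∑ i : B, bs.repr ⟨s, hs⟩ i • W b δ L θ (i : Q → ℂ)‖ := by
        conv_lhs => rw [h1]
        rw [map_sum]
        simp only [map_smul]
    _ ≤ ∑ i : B, ‖bs.repr ⟨s, hs⟩ i • W b δ L θ (i : Q → ℂ)‖ := norm_sum_le _ _
    _ ≤ ∑ i : B, (Cc i * ‖s‖) * (R * ‖(i : Q → ℂ)‖) := by
        refine sum_le_sum fun i _ => ?_
        rw [norm_smul]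
        exact mul_le_mul (hCc i ⟨s, hs⟩) (h2 i) (norm_nonneg _)
          (mul_nonneg (hCc0 i) (norm_nonneg _))
    _ = (∑ i : B, Cc i * ‖(i : Q → ℂ)‖) * R * ‖s‖ := by
        rw [sum_mul, sum_mul]
        refine sum_congr rfl fun i _ => ?_
        ring
    _ ≤ C * R * ‖s‖ := by
        apply mul_le_mul_of_nonneg_right _ (norm_nonneg _)
        apply mul_le_mul_of_nonneg_right _ hR0
        linarith

/-- the exponential sums of an automaton -/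
theorem auto_sum (hb : 2 ≤ b) (hfull : ∀ x z : Q, ∃ d < b, δ d x = z) :
    ∃ C a : ℝ, 0 < C ∧ 0 < a ∧ a < 1 ∧ ∀ (L q h : ℕ) (φ : Q → ℂ), 1 ≤ h → h < q →
      q.Coprime (b * (Fintype.card Q).factorial) →
      ‖W b δ (L + L) ((h : ℝ) / q) φ‖ ≤ C * (a ^ L * (b : ℝ) ^ (L + L) + q * (b : ℝ) ^ L) * ‖φ‖ := by
  obtain ⟨C₁, a, hC₁, ha0, ha1, h1⟩ := contr_iter (δ := δ) (by omega : 0 < b) hfull
  obtain ⟨C₂, hC₂, h2⟩ := SS_bound (δ := δ) hb hfull
  have hbR : (2 : ℝ) ≤ b := by exact_mod_cast hb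
  set n : ℝ := ((Fintype.card Q : ℕ) : ℝ) with hn
  have hn0 : 0 ≤ n := Nat.cast_nonneg _
  refine ⟨C₁ + C₂ * n * (1 + C₁), a, by positivity, ha0, ha1, ?_⟩
  intro L q h φ hh hq hcop
  have hq0 : 0 < q := by omega
  have hqR : (0 : ℝ) < q := by exact_mod_cast hq0
  set θ : ℝ := (h : ℝ) / q with hθ
  set ψ : Q → ℂ := W b δ L θ φ with hψ
  have hψn : ‖ψ‖ ≤ (b : ℝ) ^ L * ‖φ‖ := W_norm_le L θ φ
  obtain ⟨s, hs, hsn⟩ := exists_near (b := b) (δ := δ) ψ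
  have hr : ‖ψ - s‖ ≤ C₁ * a ^ L * (b : ℝ) ^ L * ‖φ‖ := by
    rw [hsn]
    exact h1 L θ φ
  have haL : a ^ L ≤ 1 := pow_le_one₀ ha0.le ha1.le
  have hbL : (0 : ℝ) < (b : ℝ) ^ L := by positivity
  have hsn2 : ‖s‖ ≤ (1 + C₁) * (b : ℝ) ^ L * ‖φ‖ := by
    have h3 : ‖s‖ ≤ ‖ψ‖ + ‖ψ - s‖ := by
      have := norm_sub_le ψ (ψ - s)
      rwa [sub_sub_cancel] at this
    have h4 : C₁ * a ^ L * (b : ℝ) ^ L * ‖φ‖ ≤ C₁ * 1 * (b : ℝ) ^ L * ‖φ‖ := by gcongr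
    calc ‖s‖ ≤ (b : ℝ) ^ L * ‖φ‖ + C₁ * 1 * (b : ℝ) ^ L * ‖φ‖ := by linarith
      _ = _ := by ring
  have hgeo : ∀ (θ₀ : ℝ) (q₀ : ℕ) (z : ℤ), 1 ≤ q₀ → q₀ ≤ Fintype.card Q → (q₀ : ℝ) * θ₀ = z →
      ∀ N : ℕ, ‖∑ m ∈ range N, e (m * ((b : ℝ) ^ L * θ - θ₀))‖ ≤ q * n := by
    intro θ₀ q₀ z hq1 hq2 hz N
    have h3 : ‖∑ m ∈ range N, e (m * ((b : ℝ) ^ L * θ - θ₀))‖ ≤ ((q * q₀ : ℕ) : ℝ) := by
      apply geom_bound (q * q₀) (Nat.mul_pos hq0 (by omega)) _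
        ((q₀ : ℤ) * (b : ℤ) ^ L * h - q * z)
      · push_cast
        rw [← hz, hθ]
        field_simp
      · intro k hk
        have h4 : (q₀ : ℝ) * (b : ℝ) ^ L * h = q * (z + q₀ * k) := by
          rw [← hk, ← hz, hθ]
          field_simp
          ring
        have h5 : (q₀ : ℤ) * (b : ℤ) ^ L * h = q * (z + q₀ * k) := by exact_mod_cast h4
        have h6 : (q : ℤ) ∣ ((q₀ * b ^ L * h : ℕ) : ℤ) := by
          push_cast
          rw [h5]
          exact dvd_mul_right _ _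
        have h7 : q ∣ q₀ * b ^ L * h := by exact_mod_cast h6
        have h8 : q.Coprime (q₀ * b ^ L) := by
          apply Nat.Coprime.mul_right
          · exact (Nat.Coprime.coprime_mul_left_right hcop).coprime_dvd_right
              (Nat.dvd_factorial (by omega) hq2)
          · exact Nat.Coprime.pow_right L (Nat.Coprime.coprime_mul_right_right hcop)
        have h9 : q ∣ h := h8.dvd_of_dvd_mul_left h7
        have := Nat.le_of_dvd (by omega) h9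
        omega
    refine h3.trans ?_
    push_cast
    apply mul_le_mul_of_nonneg_left _ hqR.le
    rw [hn]
    exact_mod_cast hq2
  have e1 : W b δ (L + L) θ φ = W b δ L ((b : ℝ) ^ L * θ) s + W b δ L ((b : ℝ) ^ L * θ) (ψ - s) := by
    rw [W_add (by omega : 0 < b), ← map_add, add_sub_cancel]
  rw [e1]
  have e2 : ‖W b δ L ((b : ℝ) ^ L * θ) s‖ ≤ C₂ * (q * n) * ((1 + C₁) * (b : ℝ) ^ L * ‖φ‖) := by
    refine (h2 s hs L _ (q * n) (by positivity) hgeo).trans ?_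
    gcongr
  have e3 : ‖W b δ L ((b : ℝ) ^ L * θ) (ψ - s)‖ ≤ (b : ℝ) ^ L * (C₁ * a ^ L * (b : ℝ) ^ L * ‖φ‖) :=
    (W_norm_le L _ _).trans (mul_le_mul_of_nonneg_left hr hbL.le)
  have e4 : 0 ≤ ‖φ‖ := norm_nonneg _
  calc _ ≤ _ := norm_add_le _ _
    _ ≤ C₂ * (q * n) * ((1 + C₁) * (b : ℝ) ^ L * ‖φ‖) +
        (b : ℝ) ^ L * (C₁ * a ^ L * (b : ℝ) ^ L * ‖φ‖) := add_le_add e2 e3
    _ = C₁ * (a ^ L * (b : ℝ) ^ (L + L)) * ‖φ‖ + (C₂ * n * (1 + C₁)) * (q * (b : ℝ) ^ L) * ‖φ‖ := by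
        rw [pow_add]; ring
    _ ≤ _ := by
        have t1 : 0 ≤ C₂ * n * (1 + C₁) * (a ^ L * (b : ℝ) ^ (L + L)) * ‖φ‖ := by positivity
        have t2 : 0 ≤ C₁ * (q * (b : ℝ) ^ L) * ‖φ‖ := by positivity
        nlinarith

end

end Pool.Agent.U602.AU
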