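import Pool.Agent.U602.AU.Bound

set_option autoImplicit false
set_option linter.unusedSectionVars false

/-! The exponential sums of an automaton at real frequencies. -/

namespace Pool.Agent.U602.AU

open Finset Filter Topology
open Pool.Agent.H469R2.NK (e norm_e e_add e_zero)
open Pool.Agent.TH915.PW (e_int e_natmul continuous_e norm_linear)

/-- geometric sums -/
lemma geom_real (θ δ : ℝ) (hδ : 0 < δ) (hθ : ∀ m : ℤ, δ ≤ |θ - m|) (N : ℕ) :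
    ‖∑ m ∈ range N, e (m * θ)‖ ≤ 2 / δ := by
  have h2 : δ ≤ Int.fract θ := by
    have := hθ ⌊θ⌋
    rwa [Int.self_sub_floor, abs_of_nonneg (Int.fract_nonneg θ)] at this
  have h3 : Int.fract θ ≤ 1 - δ := by
    have := hθ (⌊θ⌋ + 1)
    have h4 : θ - ((⌊θ⌋ + 1 : ℤ) : ℝ) = Int.fract θ - 1 := by
      push_cast
      rw [← Int.self_sub_floor]
      ring
    rw [h4, abs_of_nonpos (by linarith [Int.fract_lt_one θ])] at this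
    linarith
  exact norm_linear (fun m => m * θ) N θ δ hδ h2 h3 (fun n _ => by push_cast; ring)

section

variable {Q : Type} [Fintype Q] {b : ℕ} {δ : ℕ → Q → Q}

/-- the exponential sums of an automaton at real frequencies: `K` low digits and `L` high digits -/
theorem auto_gen (hb : 2 ≤ b) (hfull : ∀ x z : Q, ∃ d < b, δ d x = z) :
    ∃ C a : ℝ, 0 < C ∧ 0 < a ∧ a < 1 ∧ ∀ (L K : ℕ) (θ ρ : ℝ) (φ : Q → ℂ), 0 < ρ →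
      (∀ q₀ : ℕ, 1 ≤ q₀ → q₀ ≤ Fintype.card Q → ∀ k : ℤ, ρ ≤ |q₀ * ((b : ℝ) ^ K * θ) - k|) →
      ‖W b δ (L + K) θ φ‖ ≤ C * (a ^ K * (b : ℝ) ^ (L + K) + (b : ℝ) ^ K / ρ) * ‖φ‖ := by
  obtain ⟨C₁, a, hC₁, ha0, ha1, h1⟩ := contr_iter (δ := δ) (by omega : 0 < b) hfull
  obtain ⟨C₂, hC₂, h2⟩ := SS_bound (δ := δ) hb hfull
  have hbR : (2 : ℝ) ≤ b := by exact_mod_cast hb
  set n : ℝ := ((Fintype.card Q : ℕ) : ℝ) with hn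
  have hn0 : 0 ≤ n := Nat.cast_nonneg _
  refine ⟨C₁ + C₂ * (2 * n) * (1 + C₁), a, by positivity, ha0, ha1, ?_⟩
  intro L K θ ρ φ hρ hθ
  set ψ : Q → ℂ := W b δ K θ φ with hψ
  have hψn : ‖ψ‖ ≤ (b : ℝ) ^ K * ‖φ‖ := W_norm_le K θ φ
  obtain ⟨s, hs, hsn⟩ := exists_near (b := b) (δ := δ) ψ
  have hr : ‖ψ - s‖ ≤ C₁ * a ^ K * (b : ℝ) ^ K * ‖φ‖ := by
    rw [hsn]
    exact h1 K θ φ
  have haL : a ^ K ≤ 1 := pow_le_one₀ ha0.le ha1.le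
  have hbK : (0 : ℝ) < (b : ℝ) ^ K := by positivity
  have hbL : (0 : ℝ) < (b : ℝ) ^ L := by positivity
  have hsn2 : ‖s‖ ≤ (1 + C₁) * (b : ℝ) ^ K * ‖φ‖ := by
    have h3 : ‖s‖ ≤ ‖ψ‖ + ‖ψ - s‖ := by
      have := norm_sub_le ψ (ψ - s)
      rwa [sub_sub_cancel] at this
    have h4 : C₁ * a ^ K * (b : ℝ) ^ K * ‖φ‖ ≤ C₁ * 1 * (b : ℝ) ^ K * ‖φ‖ := by gcongr
    calc ‖s‖ ≤ (b : ℝ) ^ K * ‖φ‖ + C₁ * 1 * (b : ℝ) ^ K * ‖φ‖ := by linarith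
      _ = _ := by ring
  have hgeo : ∀ (θ₀ : ℝ) (q₀ : ℕ) (z : ℤ), 1 ≤ q₀ → q₀ ≤ Fintype.card Q → (q₀ : ℝ) * θ₀ = z →
      ∀ N : ℕ, ‖∑ m ∈ range N, e (m * ((b : ℝ) ^ K * θ - θ₀))‖ ≤ 2 * n / ρ := by
    intro θ₀ q₀ z hq1 hq2 hz N
    have hq0 : (0 : ℝ) < q₀ := by exact_mod_cast hq1
    have h3 : ‖∑ m ∈ range N, e (m * ((b : ℝ) ^ K * θ - θ₀))‖ ≤ 2 / (ρ / q₀) := by
      apply geom_real _ _ (by positivity)
      intro m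
      rw [div_le_iff₀ hq0]
      have h4 := hθ q₀ hq1 hq2 (z + q₀ * m)
      have h5 : (q₀ : ℝ) * ((b : ℝ) ^ K * θ) - ((z + q₀ * m : ℤ) : ℝ) =
          ((b : ℝ) ^ K * θ - θ₀ - m) * q₀ := by
        push_cast
        rw [← hz]
        ring
      rw [h5, abs_mul, abs_of_pos hq0] at h4
      exact h4
    refine h3.trans ?_
    have hq2' : (q₀ : ℝ) ≤ n := by rw [hn]; exact_mod_cast hq2
    rw [div_div_eq_mul_div]
    gcongr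
  have e1 : W b δ (L + K) θ φ = W b δ L ((b : ℝ) ^ K * θ) s + W b δ L ((b : ℝ) ^ K * θ) (ψ - s) := by
    rw [W_add (by omega : 0 < b), ← map_add, add_sub_cancel]
  rw [e1]
  have e2 : ‖W b δ L ((b : ℝ) ^ K * θ) s‖ ≤ C₂ * (2 * n / ρ) * ((1 + C₁) * (b : ℝ) ^ K * ‖φ‖) := by
    refine (h2 s hs L _ (2 * n / ρ) (by positivity) hgeo).trans ?_
    gcongr
  have e3 : ‖W b δ L ((b : ℝ) ^ K * θ) (ψ - s)‖ ≤ (b : ℝ) ^ L * (C₁ * a ^ K * (b : ℝ) ^ K * ‖φ‖) :=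
    (W_norm_le L _ _).trans (mul_le_mul_of_nonneg_left hr hbL.le)
  have e4 : 0 ≤ ‖φ‖ := norm_nonneg _
  calc _ ≤ _ := norm_add_le _ _
    _ ≤ C₂ * (2 * n / ρ) * ((1 + C₁) * (b : ℝ) ^ K * ‖φ‖) +
        (b : ℝ) ^ L * (C₁ * a ^ K * (b : ℝ) ^ K * ‖φ‖) := add_le_add e2 e3
    _ = C₁ * (a ^ K * (b : ℝ) ^ (L + K)) * ‖φ‖ +
        (C₂ * (2 * n) * (1 + C₁)) * ((b : ℝ) ^ K / ρ) * ‖φ‖ := by
        rw [pow_add]; field_simp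
        ring
    _ ≤ _ := by
        have t1 : 0 ≤ C₂ * (2 * n) * (1 + C₁) * (a ^ K * (b : ℝ) ^ (L + K)) * ‖φ‖ := by positivity
        have t2 : 0 ≤ C₁ * ((b : ℝ) ^ K / ρ) * ‖φ‖ := by positivity
        nlinarith

end

end Pool.Agent.U602.AU
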