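import Pool.Agent.U602.AU.Auto

set_option autoImplicit false
set_option linter.unusedSectionVars false

/-! The exponential sums of an automaton contract modulo the special functions. -/

namespace Pool.Agent.U602.AU

open Finset Filter Topology
open Pool.Agent.H469R2.NK (e norm_e e_add e_zero)
open Pool.Agent.TH915.PW (e_int e_natmul continuous_e)

/-- if `N` numbers of modulus at most one have a sum of modulus at least `N`, they are equal -/
lemma all_eq (N : ℕ) (z : ℕ → ℂ) (hz : ∀ m < N, ‖z m‖ ≤ 1)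
    (h : (N : ℝ) ≤ ‖∑ m ∈ range N, z m‖) : ∀ m < N, z m = z 0 := by
  set S : ℂ := ∑ m ∈ range N, z m with hS
  rcases Nat.eq_zero_or_pos N with hN | hN
  · intro m hm
    omega
  have hN' : (0 : ℝ) < N := by exact_mod_cast hN
  have hS0 : 0 < ‖S‖ := by linarith
  set c : ℂ := S / ‖S‖ with hc
  have hSne : (‖S‖ : ℂ) ≠ 0 := by exact_mod_cast hS0.ne'
  have hcn : ‖c‖ = 1 := by
    rw [hc, norm_div, Complex.norm_real, norm_norm, div_self hS0.ne']
  have hcS : ((starRingEnd ℂ) c * S).re = ‖S‖ := by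
    have h1 : (starRingEnd ℂ) c * S = ‖S‖ := by
      have h2 : S = c * ‖S‖ := by rw [hc]; field_simp
      calc (starRingEnd ℂ) c * S = (starRingEnd ℂ) c * c * ‖S‖ := by
            conv_lhs => rw [h2]
            ring
        _ = ‖S‖ := by
            rw [mul_comm ((starRingEnd ℂ) c), Complex.mul_conj, Complex.normSq_eq_norm_sq, hcn]
            norm_num
    rw [h1]
    exact Complex.ofReal_re _
  have hsum : ((starRingEnd ℂ) c * S).re = ∑ m ∈ range N, ((starRingEnd ℂ) c * z m).re := by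
    rw [hS, mul_sum, Complex.re_sum]
  have hle : ∀ m < N, ((starRingEnd ℂ) c * z m).re ≤ 1 := by
    intro m hm
    refine (Complex.re_le_norm _).trans ?_
    rw [norm_mul, RCLike.norm_conj, hcn, one_mul]
    exact hz m hm
  have key : ∀ m < N, z m = c := by
    intro m hm
    have h1 : 1 ≤ ((starRingEnd ℂ) c * z m).re := by
      by_contra hlt
      push Not at hlt
      have h2 : ∑ m ∈ range N, ((starRingEnd ℂ) c * z m).re < ∑ m ∈ range N, (1 : ℝ) :=
        sum_lt_sum (fun i hi => hle i (mem_range.1 hi)) ⟨m, mem_range.2 hm, hlt⟩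
      rw [← hsum, hcS, sum_const, card_range, nsmul_eq_mul, mul_one] at h2
      linarith
    have h3 := hz m hm
    have e1 : ‖z m‖ ^ 2 ≤ 1 := pow_le_one₀ (norm_nonneg _) h3
    have e2 : ‖c‖ ^ 2 = 1 := by rw [hcn]; norm_num
    rw [← Complex.normSq_eq_norm_sq, Complex.normSq_apply] at e1 e2
    simp only [Complex.mul_re, Complex.conj_re, Complex.conj_im] at h1
    have h4 : ((z m).re - c.re) ^ 2 + ((z m).im - c.im) ^ 2 ≤ 0 := by nlinarith
    have h5 : (z m).re - c.re = 0 := by nlinarith [sq_nonneg ((z m).re - c.re), sq_nonneg ((z m).im - c.im)]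
    have h6 : (z m).im - c.im = 0 := by nlinarith [sq_nonneg ((z m).re - c.re), sq_nonneg ((z m).im - c.im)]
    exact Complex.ext (by linarith) (by linarith)
  intro m hm
  rw [key m hm, key 0 hN]

section

variable {Q : Type} [Fintype Q] {b : ℕ} {δ : ℕ → Q → Q}

lemma W_norm_le (L : ℕ) (θ : ℝ) (φ : Q → ℂ) : ‖W b δ L θ φ‖ ≤ (b : ℝ) ^ L * ‖φ‖ := by
  rw [pi_norm_le_iff_of_nonneg (by positivity)]
  intro x
  rw [W_apply]
  refine (norm_sum_le _ _).trans ?_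
  have : ∀ m ∈ range (b ^ L), ‖e (m * θ) * φ (T b δ L m x)‖ ≤ ‖φ‖ := by
    intro m _
    rw [norm_mul, norm_e, one_mul]
    exact norm_le_pi_norm φ _
  refine (sum_le_card_nsmul _ _ _ this).trans ?_
  rw [card_range, nsmul_eq_mul]
  push_cast
  exact le_rfl

/-- the quotient norm -/
noncomputable def Nq (b : ℕ) (δ : ℕ → Q → Q) (φ : Q → ℂ) : ℝ :=
  Metric.infDist φ (SS b δ : Set (Q → ℂ))

lemma SS_nonempty : ((SS b δ : Submodule ℂ (Q → ℂ)) : Set (Q → ℂ)).Nonempty :=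
  ⟨0, Submodule.zero_mem _⟩

lemma exists_near (φ : Q → ℂ) : ∃ s ∈ SS b δ, ‖φ - s‖ = Nq b δ φ := by
  obtain ⟨s, hs, h⟩ := IsClosed.exists_infDist_eq_dist
    (Submodule.closed_of_finiteDimensional (SS b δ)) SS_nonempty φ
  exact ⟨s, hs, by rw [Nq, h, dist_eq_norm]⟩

lemma Nq_le (φ s : Q → ℂ) (hs : s ∈ SS b δ) : Nq b δ φ ≤ ‖φ - s‖ := by
  rw [Nq, ← dist_eq_norm]
  exact Metric.infDist_le_dist_of_mem hs

lemma Nq_le_norm (φ : Q → ℂ) : Nq b δ φ ≤ ‖φ‖ := by
  have := Nq_le φ 0 (Submodule.zero_mem (SS b δ))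
  simpa using this

lemma Nq_nonneg (φ : Q → ℂ) : 0 ≤ Nq b δ φ := Metric.infDist_nonneg

lemma Nq_W (hb : 0 < b) (L : ℕ) (θ : ℝ) (φ : Q → ℂ) :
    Nq b δ (W b δ L θ φ) ≤ (b : ℝ) ^ L * Nq b δ φ := by
  obtain ⟨s, hs, h⟩ := exists_near (b := b) (δ := δ) φ
  refine (Nq_le _ (W b δ L θ s) (W_SS hb hs L θ)).trans ?_
  rw [← map_sub, ← h]
  exact W_norm_le L θ _

lemma Nq_smul (c : ℂ) (φ : Q → ℂ) : Nq b δ (c • φ) ≤ ‖c‖ * Nq b δ φ := by
  obtain ⟨s, hs, h⟩ := exists_near (b := b) (δ := δ) φ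
  refine (Nq_le _ (c • s) (Submodule.smul_mem _ _ hs)).trans ?_
  rw [← smul_sub, norm_smul, h]

lemma Nq_sub_mem (φ s : Q → ℂ) (hs : s ∈ SS b δ) : Nq b δ φ ≤ Nq b δ (φ - s) := by
  obtain ⟨s', hs', h⟩ := exists_near (b := b) (δ := δ) (φ - s)
  rw [← h, sub_sub]
  exact Nq_le _ _ (Submodule.add_mem _ hs hs')

lemma W_fract (L : ℕ) (θ : ℝ) (φ : Q → ℂ) : W b δ L (Int.fract θ) φ = W b δ L θ φ := by
  ext x
  rw [W_apply, W_apply]
  refine sum_congr rfl fun m _ => ?_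
  have h1 : (m : ℝ) * θ = m * Int.fract θ + ((m * ⌊θ⌋ : ℤ) : ℝ) := by
    push_cast
    rw [← mul_add, Int.fract_add_floor]
  rw [h1, e_add, e_int, mul_one]

lemma continuous_W (L : ℕ) : Continuous (fun p : ℝ × (Q → ℂ) => W b δ L p.1 p.2) := by
  apply continuous_pi
  intro x
  simp only [W_apply]
  apply continuous_finsetSum
  intro m _
  apply Continuous.mul
  · exact continuous_e.comp (continuous_const.mul continuous_fst)
  · exact (continuous_apply _).comp continuous_snd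

/-- no function is as large modulo the special ones as trivially possible for all lengths -/
lemma not_all (hb : 0 < b) (hfull : ∀ x z : Q, ∃ d < b, δ d x = z) (θ : ℝ) (χ : Q → ℂ)
    (hχ : ‖χ‖ = 1) (h : ∀ K : ℕ, (b : ℝ) ^ K ≤ Nq b δ (W b δ K θ χ)) : False := by
  -- some point for every length
  have h1 : ∀ K : ℕ, ∃ x : Q, ∀ m < b ^ K, e (m * θ) * χ (T b δ K m x) = χ (T b δ K 0 x) := by
    intro K
    have h2 : (b : ℝ) ^ K ≤ ‖W b δ K θ χ‖ := (h K).trans (Nq_le_norm _)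
    have hbK : (0 : ℝ) < (b : ℝ) ^ K := by positivity
    obtain ⟨x, hx⟩ : ∃ x, (b : ℝ) ^ K ≤ ‖W b δ K θ χ x‖ := by
      by_contra hcon
      push Not at hcon
      have := (pi_norm_lt_iff hbK).2 hcon
      linarith
    refine ⟨x, ?_⟩
    rw [W_apply] at hx
    have h3 := all_eq (b ^ K) (fun m => e (m * θ) * χ (T b δ K m x)) (by
      intro m _
      rw [norm_mul, norm_e, one_mul, ← hχ]
      exact norm_le_pi_norm χ _) (by
      push_cast
      exact hx)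
    intro m hm
    have h4 := h3 m hm
    simp only [Nat.cast_zero, zero_mul, e_zero, one_mul] at h4
    exact h4
  have h2 : χ ∈ Sp b δ θ := by
    rw [mem_Sp]
    intro K z m hm
    obtain ⟨x, hx⟩ := h1 (K + 1)
    obtain ⟨d, hd, rfl⟩ := hfull x z
    have hbK : 0 < b ^ K := by positivity
    have h3 : ∀ m < b ^ K, e ((b ^ K * d : ℕ) * θ) * (e (m * θ) * χ (T b δ K m (δ d x))) =
        χ (T b δ (K + 1) 0 x) := by
      intro m hm
      have h4 : b ^ K * d + m < b ^ (K + 1) := by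
        rw [pow_succ]
        calc b ^ K * d + m < b ^ K * d + b ^ K := by omega
          _ = b ^ K * (d + 1) := by ring
          _ ≤ b ^ K * b := Nat.mul_le_mul_left _ hd
      rw [← hx _ h4, add_comm K 1, T_add hb 1 K d m hm x, T_one d hd, ← mul_assoc, ← e_add]
      congr 2
      push_cast
      ring
    have h5 := (h3 m hm).trans (h3 0 hbK).symm
    have h6 : e ((b ^ K * d : ℕ) * θ) ≠ 0 := by
      intro h7
      have := norm_e ((b ^ K * d : ℕ) * θ)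
      rw [h7, norm_zero] at this
      exact zero_ne_one this
    have h7 := mul_left_cancel₀ h6 h5
    simpa [e_zero] using h7
  have h3 := h 0
  have h4 : Nq b δ (W b δ 0 θ χ) ≤ 0 := by
    have h5 : W b δ 0 θ χ ∈ SS b δ := W_SS hb (Submodule.mem_iSup_of_mem θ h2) 0 θ
    refine (Nq_le _ _ h5).trans ?_
    simp
  simp only [pow_zero] at h3
  linarith

/-- the contraction -/
theorem contr (hb : 0 < b) (hfull : ∀ x z : Q, ∃ d < b, δ d x = z) :
    ∃ L₀ : ℕ, ∃ a : ℝ, 0 < a ∧ a < 1 ∧ ∀ (θ : ℝ) (φ : Q → ℂ),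
      Nq b δ (W b δ L₀ θ φ) ≤ a * (b : ℝ) ^ L₀ * Nq b δ φ := by
  by_contra hcon
  push Not at hcon
  have hbR : (0 : ℝ) < b := by exact_mod_cast hb
  have key : ∀ k : ℕ, ∃ p : ℝ × (Q → ℂ), p ∈ (Set.Icc (0 : ℝ) 1) ×ˢ (Metric.sphere (0 : Q → ℂ) 1) ∧
      (1 - 1 / ((k : ℝ) + 2)) * (b : ℝ) ^ k < Nq b δ (W b δ k p.1 p.2) := by
    intro k
    have hk : (0 : ℝ) < (k : ℝ) + 2 := by positivity
    have hk1 : 1 / ((k : ℝ) + 2) < 1 := by
      rw [div_lt_one hk]; linarith [(Nat.cast_nonneg k : (0 : ℝ) ≤ k)]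
    have hk2 : 0 < 1 / ((k : ℝ) + 2) := by positivity
    obtain ⟨θ, φ, h1⟩ := hcon k (1 - 1 / ((k : ℝ) + 2)) (by linarith) (by linarith)
    obtain ⟨s, hs, h2⟩ := exists_near (b := b) (δ := δ) φ
    have hbk : (0 : ℝ) < (b : ℝ) ^ k := by positivity
    have hN : 0 < Nq b δ φ := by
      have h3 := Nq_W (δ := δ) hb k θ φ
      have h4 : 0 ≤ (1 - 1 / ((k : ℝ) + 2)) * (b : ℝ) ^ k * Nq b δ φ :=
        mul_nonneg (mul_nonneg (by linarith) hbk.le) (Nq_nonneg _)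
      by_contra hneg
      push Not at hneg
      have h5 : Nq b δ φ = 0 := le_antisymm hneg (Nq_nonneg _)
      rw [h5] at h3
      simp only [mul_zero] at h3
      linarith
    set c : ℂ := (((Nq b δ φ)⁻¹ : ℝ) : ℂ) with hc
    have hcn : ‖c‖ = (Nq b δ φ)⁻¹ := by
      rw [hc, Complex.norm_real, Real.norm_eq_abs, abs_of_pos (by positivity)]
    refine ⟨(Int.fract θ, c • (φ - s)), ⟨⟨Int.fract_nonneg _, (Int.fract_lt_one _).le⟩, ?_⟩, ?_⟩
    · rw [mem_sphere_zero_iff_norm, norm_smul, hcn, h2, inv_mul_cancel₀ hN.ne']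
    · simp only [W_fract, map_smul]
      have h3 : Nq b δ (W b δ k θ φ) ≤ Nq b δ (W b δ k θ (φ - s)) := by
        rw [map_sub]
        exact Nq_sub_mem _ _ (W_SS hb hs k θ)
      have h4 : Nq b δ (W b δ k θ (φ - s)) ≤ Nq b δ φ * Nq b δ (c • W b δ k θ (φ - s)) := by
        have h5 := Nq_smul (b := b) (δ := δ) c⁻¹ (c • W b δ k θ (φ - s))
        have hc0 : c ≠ 0 := by
          intro h6
          rw [h6, norm_zero] at hcn
          exact (inv_pos.2 hN).ne hcn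
        rw [smul_smul, inv_mul_cancel₀ hc0, one_smul, norm_inv, hcn, inv_inv] at h5
        exact h5
      have h6 : (1 - 1 / ((k : ℝ) + 2)) * (b : ℝ) ^ k * Nq b δ φ <
          Nq b δ (c • W b δ k θ (φ - s)) * Nq b δ φ := by
        calc _ < _ := h1
          _ ≤ _ := h3
          _ ≤ _ := h4
          _ = _ := mul_comm _ _
      exact lt_of_mul_lt_mul_right h6 hN.le
  choose p hp1 hp2 using key
  obtain ⟨⟨θ, χ⟩, hmem, σ, hσ, hlim⟩ := (isCompact_Icc.prod (isCompact_sphere (0 : Q → ℂ) 1)).tendsto_subseq hp1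
  have hχ : ‖χ‖ = 1 := mem_sphere_zero_iff_norm.1 hmem.2
  apply not_all hb hfull θ χ hχ
  intro K
  have hcont : Continuous (fun q : ℝ × (Q → ℂ) => Nq b δ (W b δ K q.1 q.2)) :=
    (Metric.continuous_infDist_pt _).comp (continuous_W K)
  have h1 : Tendsto (fun j => Nq b δ (W b δ K (p (σ j)).1 (p (σ j)).2)) atTop
      (𝓝 (Nq b δ (W b δ K θ χ))) := (hcont.tendsto (θ, χ)).comp hlim
  have h2 : Tendsto (fun j : ℕ => (1 - 1 / (((σ j : ℕ) : ℝ) + 2)) * (b : ℝ) ^ K) atTop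
      (𝓝 ((1 - 0) * (b : ℝ) ^ K)) := by
    apply Tendsto.mul_const
    apply Tendsto.const_sub
    have h3 : Tendsto (fun j : ℕ => ((σ j : ℕ) : ℝ) + 2) atTop atTop :=
      tendsto_atTop_add_const_right _ _ (tendsto_natCast_atTop_atTop.comp hσ.tendsto_atTop)
    exact tendsto_const_nhds.div_atTop h3
  rw [sub_zero, one_mul] at h2
  refine le_of_tendsto_of_tendsto h2 h1 ?_
  filter_upwards [hσ.tendsto_atTop.eventually_ge_atTop K] with j hj
  have h4 := hp2 (σ j)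
  obtain ⟨r, hr⟩ := Nat.exists_eq_add_of_le hj
  have h5 : Nq b δ (W b δ (σ j) (p (σ j)).1 (p (σ j)).2) ≤
      (b : ℝ) ^ r * Nq b δ (W b δ K (p (σ j)).1 (p (σ j)).2) := by
    have h6 : W b δ (σ j) (p (σ j)).1 (p (σ j)).2 =
        W b δ r (b ^ K * (p (σ j)).1) (W b δ K (p (σ j)).1 (p (σ j)).2) := by
      rw [← W_add hb]
      congr 2
      omega
    rw [h6]
    exact Nq_W hb _ _ _
  have h7 : (b : ℝ) ^ (σ j) = (b : ℝ) ^ r * (b : ℝ) ^ K := by
    rw [← pow_add]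
    congr 1
    omega
  rw [h7] at h4
  have hbr : (0 : ℝ) < (b : ℝ) ^ r := by positivity
  have h8 : (b : ℝ) ^ r * ((1 - 1 / (((σ j : ℕ) : ℝ) + 2)) * (b : ℝ) ^ K) ≤
      (b : ℝ) ^ r * Nq b δ (W b δ K (p (σ j)).1 (p (σ j)).2) := by
    calc _ = (1 - 1 / (((σ j : ℕ) : ℝ) + 2)) * ((b : ℝ) ^ r * (b : ℝ) ^ K) := by ring
      _ ≤ _ := h4.le
      _ ≤ _ := h5
  exact le_of_mul_le_mul_left h8 hbr

/-- iterated contraction -/
theorem contr_iter (hb : 0 < b) (hfull : ∀ x z : Q, ∃ d < b, δ d x = z) :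
    ∃ C a : ℝ, 0 < C ∧ 0 < a ∧ a < 1 ∧ ∀ (L : ℕ) (θ : ℝ) (φ : Q → ℂ),
      Nq b δ (W b δ L θ φ) ≤ C * a ^ L * (b : ℝ) ^ L * ‖φ‖ := by
  obtain ⟨L₀, a, ha0, ha1, h⟩ := contr (δ := δ) hb hfull
  have hbR : (0 : ℝ) < b := by exact_mod_cast hb
  have h1 : ∀ (j : ℕ) (θ : ℝ) (φ : Q → ℂ),
      Nq b δ (W b δ (j * L₀) θ φ) ≤ a ^ j * (b : ℝ) ^ (j * L₀) * Nq b δ φ := by
    intro j
    induction j with
    | zero =>
      intro θ φ
      have := Nq_W (δ := δ) hb 0 θ φ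
      simpa using this
    | succ j ih =>
      intro θ φ
      have h2 : (j + 1) * L₀ = L₀ + j * L₀ := by ring
      rw [h2, W_add hb]
      refine (h _ _).trans ?_
      calc a * (b : ℝ) ^ L₀ * Nq b δ (W b δ (j * L₀) θ φ)
          ≤ a * (b : ℝ) ^ L₀ * (a ^ j * (b : ℝ) ^ (j * L₀) * Nq b δ φ) :=
            mul_le_mul_of_nonneg_left (ih θ φ) (by positivity)
        _ = _ := by rw [pow_succ, pow_add]; ring
  -- the case `L₀ = 0`
  rcases Nat.eq_zero_or_pos L₀ with hL | hL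
  · refine ⟨1, 1 / 2, one_pos, by norm_num, by norm_num, ?_⟩
    intro L θ φ
    have h2 : ∀ ψ : Q → ℂ, Nq b δ ψ ≤ 0 := by
      intro ψ
      have h3 := h 0 ψ
      rw [hL] at h3
      have h4 : W b δ 0 0 ψ = ψ := by
        ext x
        simp [W_apply, e_zero, T_zero]
      rw [h4, pow_zero, mul_one] at h3
      have := Nq_nonneg (b := b) (δ := δ) ψ
      nlinarith
    refine (h2 _).trans (by positivity)
  · -- a = a₁ ^ L₀
    set a₁ : ℝ := a ^ (1 / (L₀ : ℝ)) with ha₁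
    have hL₀ : (0 : ℝ) < L₀ := by exact_mod_cast hL
    have ha10 : 0 < a₁ := Real.rpow_pos_of_pos ha0 _
    have ha11 : a₁ < 1 := Real.rpow_lt_one ha0.le ha1 (by positivity)
    have ha1L : a₁ ^ L₀ = a := by
      rw [ha₁, ← Real.rpow_natCast, ← Real.rpow_mul ha0.le, one_div_mul_cancel hL₀.ne',
        Real.rpow_one]
    refine ⟨(a₁ ^ L₀)⁻¹, a₁, by positivity, ha10, ha11, ?_⟩
    intro L θ φ
    set j := L / L₀ with hj
    set r := L % L₀ with hr
    have hjr : L = r + j * L₀ := by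
      have := Nat.mod_add_div L L₀
      rw [hr, hj, mul_comm (L / L₀)]
      omega
    have h2 : Nq b δ (W b δ L θ φ) ≤ (b : ℝ) ^ r * (a ^ j * (b : ℝ) ^ (j * L₀) * ‖φ‖) := by
      rw [hjr, W_add hb]
      refine (Nq_W hb _ _ _).trans ?_
      apply mul_le_mul_of_nonneg_left _ (by positivity)
      refine (h1 j θ φ).trans ?_
      exact mul_le_mul_of_nonneg_left (Nq_le_norm φ) (by positivity)
    refine h2.trans ?_
    have h3 : a ^ j ≤ (a₁ ^ L₀)⁻¹ * a₁ ^ L := by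
      rw [← ha1L, ← pow_mul, le_inv_mul_iff₀ (by positivity), ← pow_add]
      apply pow_le_pow_of_le_one ha10.le ha11.le
      have := Nat.mod_lt L hL
      have h4 : L = r + L₀ * j := by rw [hjr]; ring
      omega
    calc (b : ℝ) ^ r * (a ^ j * (b : ℝ) ^ (j * L₀) * ‖φ‖) = a ^ j * ((b : ℝ) ^ r * (b : ℝ) ^ (j * L₀)) * ‖φ‖ := by ring
      _ = a ^ j * (b : ℝ) ^ L * ‖φ‖ := by rw [← pow_add, ← hjr]
      _ ≤ (a₁ ^ L₀)⁻¹ * a₁ ^ L * (b : ℝ) ^ L * ‖φ‖ := by gcongr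

end

end Pool.Agent.U602.AU
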