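import Pool.Agent.TH915.PW.IntCrit

set_option autoImplicit false

/-!
Record prime-free neighbourhoods of the members of a family of integers which is well distributed
modulo the integers prime to a fixed number `D`.
-/

namespace Pool.Agent.U602.AU

open Finset Filter
open Pool.Agent.H256R2.SC (ff params survivors)
open Pool.Agent.TH915.PW (coveringG crt_small)

open scoped Classical

/-- integers: the criterion, with the primes dividing `D` excluded -/
theorem critD (D : ℕ) (hD : 0 < D) : ∃ κ : ℝ, 0 < κ ∧ ∃ X₀ : ℝ, ∀ X : ℝ, X₀ ≤ X →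
    κ * ff X + 1 ≤ (Real.log X) ^ 2 ∧
    ∀ (ι : Type) (s : Finset ι) (v : ι → ℤ), s.Nonempty →
    (∀ q : ℕ, 1 ≤ q → (q : ℝ) ≤ X ^ (2 / 5 : ℝ) → q.Coprime D →
      ∀ r : ℤ, |((s.filter (fun i => (q : ℤ) ∣ v i - r)).card : ℝ) - s.card / q| ≤
        s.card * X ^ (-(3 / 5) : ℝ)) →
    ∃ i ∈ s, ∀ m : ℤ, |(m : ℝ) - v i| ≤ κ * ff X + 1 →
      ∃ p : ℕ, p.Prime ∧ (p : ℝ) ≤ X ^ (1 / 10 : ℝ) ∧ (p : ℤ) ∣ m := by
  obtain ⟨c₁, hc₁, X₁, hcov⟩ := coveringG
  obtain ⟨c, hc, X₂, hpar⟩ := params survivors c₁ hc₁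
  have hD1 : (1 : ℝ) ≤ D := by exact_mod_cast hD
  have hD0 : (0 : ℝ) < D := by linarith
  have hlogx : ∀ᶠ X : ℝ in atTop, Real.log X / 10 ≤ X ^ (1 / 10 : ℝ) := by
    have h := (isLittleO_log_rpow_atTop (show (0 : ℝ) < 1 / 10 by norm_num)).def
      (show (0 : ℝ) < 1 by norm_num)
    filter_upwards [h, eventually_ge_atTop (1 : ℝ)] with X hX hX1
    rw [Real.norm_eq_abs, abs_of_nonneg (Real.log_nonneg hX1), Real.norm_eq_abs,
      abs_of_nonneg (Real.rpow_nonneg (by linarith) _)] at hX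
    have := Real.log_nonneg hX1
    linarith
  obtain ⟨X₃, hX₃⟩ := eventually_atTop.mp hlogx
  have hL16 : ∀ᶠ X : ℝ in atTop, 160 * (D : ℝ) ≤ Real.log X :=
    Real.tendsto_log_atTop.eventually_ge_atTop _
  obtain ⟨X₄, hX₄⟩ := eventually_atTop.mp hL16
  refine ⟨c / (4 * D), by positivity, max (max X₁ X₂) (max X₃ (max X₄ 1)), ?_⟩
  intro X hX
  have hXX1 : X₁ ≤ X := ((le_max_left _ _).trans (le_max_left _ _)).trans hX
  have hXX2 : X₂ ≤ X := ((le_max_right _ _).trans (le_max_left _ _)).trans hX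
  have hXX3 : X₃ ≤ X := ((le_max_left _ _).trans (le_max_right _ _)).trans hX
  have hXX4 : X₄ ≤ X := (((le_max_left _ _).trans (le_max_right _ _)).trans
    (le_max_right _ _)).trans hX
  have hX1 : 1 ≤ X := (((le_max_right _ _).trans (le_max_right _ _)).trans
    (le_max_right _ _)).trans hX
  have hX0 : 0 < X := by linarith
  obtain ⟨hX1000, hLlog, hLge, hprim, b, hb1, hb2⟩ := hpar X hXX2
  have h3 := hX₃ X hXX3
  have h4 := hX₄ X hXX4
  set l : ℝ := Real.log X with hl
  set L : ℕ := ⌊c * ff X⌋₊ with hL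
  set Ny : ℕ := ⌊l / 10⌋₊ with hNy
  set S : Finset ℕ := (Finset.range (Ny + 1)).filter (fun p => p.Prime ∧ ¬ p ∣ D) with hS
  set P : ℕ := ∏ p ∈ S, p with hPS
  have hSp : ∀ p ∈ S, p.Prime := fun p hp => (Finset.mem_filter.mp hp).2.1
  have hSD : ∀ p ∈ S, ¬ p ∣ D := fun p hp => (Finset.mem_filter.mp hp).2.2
  have hSle : ∀ p ∈ S, (p : ℝ) ≤ l / 10 := by
    intro p hp
    have h5 := Finset.mem_range.mp (Finset.mem_filter.mp hp).1
    have h6 : (p : ℝ) ≤ Ny := by exact_mod_cast Nat.lt_succ_iff.mp h5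
    exact h6.trans (Nat.floor_le (by linarith))
  have hSmem : ∀ p : ℕ, p.Prime → (p : ℝ) ≤ l / 10 → ¬ p ∣ D → p ∈ S := by
    intro p hp hpl hpD
    rw [hS, Finset.mem_filter, Finset.mem_range]
    exact ⟨Nat.lt_succ_of_le (Nat.le_floor hpl), hp, hpD⟩
  have hPpos : 0 < P := Finset.prod_pos fun p hp => (hSp p hp).pos
  have hPle : P ≤ primorial Ny := by
    rw [hPS, Pool.Agent.TH915.PW.primorial_eq]
    apply Finset.prod_le_prod_of_subset_of_one_le'
    · intro p hp
      rw [hS, Finset.mem_filter] at hp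
      rw [Finset.mem_filter]
      exact ⟨hp.1, hp.2.1⟩
    · intro p hp _
      exact (Finset.mem_filter.mp hp).2.one_le
  have hPprim : (P : ℝ) ≤ X ^ (3 / 20 : ℝ) := by
    refine le_trans ?_ hprim
    exact_mod_cast hPle
  have hPr : (0 : ℝ) < P := by exact_mod_cast hPpos
  have hPD : Nat.Coprime P D := by
    rw [hPS]
    apply Nat.Coprime.prod_left
    intro p hp
    exact (Nat.Prime.coprime_iff_not_dvd (hSp p hp)).2 (hSD p hp)
  have hff : c * ff X < L + 1 := Nat.lt_floor_add_one _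
  have hL0 : (16 : ℝ) * D ≤ L := by linarith
  have hffL : (L : ℝ) ≤ c * ff X := by
    apply Nat.floor_le
    by_contra hneg
    push Not at hneg
    have : L = 0 := Nat.floor_of_nonpos hneg.le
    rw [this] at hL0
    simp only [Nat.cast_zero] at hL0
    linarith
  have hκ : c / (4 * D) * ff X = (c * ff X) / 4 / D := by
    field_simp
  have hκle : c / (4 * D) * ff X ≤ (c * ff X) / 4 := by
    rw [hκ]
    apply div_le_self _ hD1
    linarith
  refine ⟨by nlinarith, ?_⟩
  intro ι s v hs hcount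
  set h' : ℕ := L / (2 * D) with hh'
  set h : ℕ := D * h' with hh
  obtain ⟨b0, hb0⟩ := crt_small S hSp (fun p => b p + (p - 1) * h)
  obtain ⟨uD, wP, huw0⟩ := Nat.isCoprime_iff_coprime.2 hPD.symm
  -- huw0 : uD * D + wP * P = 1
  set r0 : ℤ := uD * b0 with hr0
  -- the candidates
  set 𝒜 : Finset ι := s.filter (fun i => (P : ℤ) ∣ v i - r0) with h𝒜
  set U : Finset ℕ := (Finset.Icc 1 L).filter (fun k => ∀ p : ℕ, p.Prime →
          (p : ℝ) ≤ l / 10 → ¬ k ≡ b p [MOD p]) with hU
  set U' : Finset ℕ := U.filter (fun k => D ∣ k) with hU'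
  have hcard : (Fintype.card {k // k ∈ U'} : ℝ) ≤ c₁ * l := by
    rw [Fintype.card_coe]
    refine le_trans ?_ hb2
    exact_mod_cast Finset.card_le_card (Finset.filter_subset _ _)
  set res : ℕ → {k // k ∈ U'} → ℤ := fun _ k => (h' : ℤ) - ((k.1 / D : ℕ) : ℤ) with hres
  have hinj : ∀ p : ℕ, p.Prime → l ^ 2 < p → (p : ℝ) ≤ X ^ (1 / 10 : ℝ) →
      p ∉ D.primeFactors → ∀ k k' : {k // k ∈ U'}, k ≠ k' →
        ¬ ((p : ℤ) ∣ res p k - res p k') := by
    intro p hp hpl _ _ k k' hkk hd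
    have h5 : res p k - res p k' = ((k'.1 / D : ℕ) : ℤ) - ((k.1 / D : ℕ) : ℤ) := by rw [hres]; ring
    rw [h5] at hd
    have hkU := Finset.mem_filter.mp k.2
    have hkU' := Finset.mem_filter.mp k'.2
    have hk := Finset.mem_Icc.mp (Finset.mem_filter.mp hkU.1).1
    have hk' := Finset.mem_Icc.mp (Finset.mem_filter.mp hkU'.1).1
    have hLp : L < p := by
      have : (L : ℝ) < p := by linarith
      exact_mod_cast this
    have hkD : k.1 / D ≤ L := (Nat.div_le_self _ _).trans hk.2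
    have hkD' : k'.1 / D ≤ L := (Nat.div_le_self _ _).trans hk'.2
    have hne : k.1 / D ≠ k'.1 / D := by
      intro h6
      apply hkk
      apply Subtype.ext
      rw [← Nat.div_mul_cancel hkU.2, ← Nat.div_mul_cancel hkU'.2, h6]
    clear h5
    generalize k.1 / D = a1 at *
    generalize k'.1 / D = a2 at *
    rcases lt_or_gt_of_ne hne with h6 | h6
    · have := Int.le_of_dvd (by omega) hd
      omega
    · have h7 : (p : ℤ) ∣ (a1 : ℤ) - (a2 : ℤ) := by
        have := (dvd_neg (a := (p : ℤ))).mpr hd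
        rwa [neg_sub] at this
      have := Int.le_of_dvd (by omega) h7
      omega
  have hscard : (0 : ℝ) < s.card := by exact_mod_cast hs.card_pos
  have hBcard : ((D.primeFactors).card : ℝ) ≤ 2 * Real.log X := by
    have h5 : (D.primeFactors).card ≤ D := by
      have h6 : D.primeFactors ⊆ Finset.Icc 1 D := by
        intro p hp
        rw [Finset.mem_Icc]
        exact ⟨(Nat.prime_of_mem_primeFactors hp).one_le, Nat.le_of_mem_primeFactors hp⟩
      have := Finset.card_le_card h6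
      rwa [Nat.card_Icc, Nat.add_sub_cancel] at this
    have h6 : ((D.primeFactors).card : ℝ) ≤ D := by exact_mod_cast h5
    linarith
  obtain ⟨i, hi, hcovi⟩ := hcov X hXX1 D.primeFactors hBcard {k // k ∈ U'} hcard res hinj ι 𝒜 v
    (s.card / P) (s.card * X ^ (-(3 / 5) : ℝ)) (by positivity) (by positivity) (by
      have h5 : (P : ℝ) * X ^ (-(3 / 5) : ℝ) ≤ X ^ (-(2 / 5) : ℝ) := by
        calc (P : ℝ) * X ^ (-(3 / 5) : ℝ) ≤ X ^ (3 / 20 : ℝ) * X ^ (-(3 / 5) : ℝ) := by gcongr
          _ = X ^ (3 / 20 + -(3 / 5) : ℝ) := by rw [Real.rpow_add hX0]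
          _ ≤ _ := Real.rpow_le_rpow_of_exponent_le hX1 (by norm_num)
      rw [div_mul_eq_mul_div, le_div_iff₀ hPr]
      calc (s.card : ℝ) * X ^ (-(3 / 5) : ℝ) * P = s.card * (P * X ^ (-(3 / 5) : ℝ)) := by ring
        _ ≤ _ := by gcongr) (by
      intro q hq hqX hqp r
      have hqD : q.Coprime D := by
        rw [Nat.coprime_iff_gcd_eq_one] 
        by_contra hne
        obtain ⟨p, hp, hpd⟩ := Nat.exists_prime_and_dvd hne
        have hpq : p ∣ q := hpd.trans (Nat.gcd_dvd_left _ _)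
        have hpD : p ∣ D := hpd.trans (Nat.gcd_dvd_right _ _)
        exact (hqp p (Nat.mem_primeFactors.mpr ⟨hp, hpq, hq.ne_zero⟩)).2
          (Nat.mem_primeFactors.mpr ⟨hp, hpD, hD.ne'⟩)
      have hcop : Nat.Coprime P q := by
        rw [Nat.coprime_comm, hPS]
        apply Nat.Coprime.prod_right
        intro p hp
        rw [Nat.coprime_comm, Nat.Prime.coprime_iff_not_dvd (hSp p hp)]
        intro hd
        have h5 : p ∈ q.primeFactors := Nat.mem_primeFactors.mpr ⟨hSp p hp, hd, hq.ne_zero⟩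
        have h6 := (hqp p h5).1
        have h7 := hSle p hp
        have h8 : l ≤ l ^ 2 := by nlinarith
        linarith
      have hq1 : 1 ≤ q := Nat.one_le_iff_ne_zero.mpr hq.ne_zero
      obtain ⟨u, w, huw⟩ := Nat.isCoprime_iff_coprime.2 hcop
      -- huw : u * P + w * q = 1
      set r' : ℤ := r0 * (w * q) + r * (u * P) with hr'
      have hiff : ∀ x : ℤ, ((P : ℤ) ∣ x - r0 ∧ (q : ℤ) ∣ x - r) ↔ ((P * q : ℕ) : ℤ) ∣ x - r' := by
        intro x
        have e1 : r0 - r' = (r0 - r) * u * P := by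
          rw [hr']
          linear_combination (-(r0 : ℤ)) * huw
        have e2 : r - r' = (r - r0) * w * q := by
          rw [hr']
          linear_combination (-(r : ℤ)) * huw
        constructor
        · rintro ⟨h5, h6⟩
          have h7 : (P : ℤ) ∣ x - r' := by
            have : x - r' = (x - r0) + (r0 - r) * u * P := by rw [← e1]; ring
            rw [this]
            exact dvd_add h5 (Dvd.intro_left _ rfl)
          have h8 : (q : ℤ) ∣ x - r' := by
            have : x - r' = (x - r) + (r - r0) * w * q := by rw [← e2]; ring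
            rw [this]
            exact dvd_add h6 (Dvd.intro_left _ rfl)
          push_cast
          exact IsCoprime.mul_dvd (Nat.isCoprime_iff_coprime.2 hcop) h7 h8
        · intro h5
          push_cast at h5
          constructor
          · have h6 : (P : ℤ) ∣ x - r' := (dvd_mul_right _ _).trans h5
            have : x - r0 = (x - r') - (r0 - r) * u * P := by rw [← e1]; ring
            rw [this]
            exact dvd_sub h6 (Dvd.intro_left _ rfl)
          · have h6 : (q : ℤ) ∣ x - r' := (dvd_mul_left _ _).trans h5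
            have : x - r = (x - r') - (r - r0) * w * q := by rw [← e2]; ring
            rw [this]
            exact dvd_sub h6 (Dvd.intro_left _ rfl)
      have h5 : 𝒜.filter (fun x => (q : ℤ) ∣ v x - r) =
          s.filter (fun x => ((P * q : ℕ) : ℤ) ∣ v x - r') := by
        rw [h𝒜, Finset.filter_filter]
        apply Finset.filter_congr
        intro x _
        exact hiff (v x)
      rw [h5]
      have h6 : (s.card : ℝ) / P / q = s.card / ((P * q : ℕ) : ℝ) := by
        push_cast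
        rw [div_div]
      rw [h6]
      apply hcount (P * q) (Nat.mul_pos hPpos hq1)
      · push_cast
        calc (P : ℝ) * q ≤ X ^ (3 / 20 : ℝ) * X ^ (1 / 4 : ℝ) := by gcongr
          _ = X ^ (3 / 20 + 1 / 4 : ℝ) := by rw [Real.rpow_add hX0]
          _ = _ := by norm_num
      · exact Nat.Coprime.mul_left hPD hqD)
  rw [h𝒜, Finset.mem_filter] at hi
  refine ⟨i, hi.1, ?_⟩
  intro m hm
  have hDh : 2 * h ≤ L := by
    have : h' * (2 * D) ≤ L := Nat.div_mul_le_self _ _
    calc 2 * h = h' * (2 * D) := by rw [hh]; ring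
      _ ≤ L := this
  have hDh2 : L < 2 * h + 2 * D := by
    have h5 : L < (h' + 1) * (2 * D) := by
      have := Nat.lt_succ_iff.mp (Nat.lt_succ_self (L / (2 * D)))
      exact (Nat.div_lt_iff_lt_mul (by omega)).mp (Nat.lt_succ_self _)
    calc L < (h' + 1) * (2 * D) := h5
      _ = 2 * h + 2 * D := by rw [hh]; ring
  have hDh' : 2 * (h : ℝ) ≤ L := by exact_mod_cast hDh
  have hDh2' : (L : ℝ) < 2 * h + 2 * D := by exact_mod_cast hDh2
  have hm' := abs_le.mp hm
  have hDκ : (D : ℝ) * (c / (4 * D) * ff X) = c * ff X / 4 := by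
    rw [hκ]; field_simp
  have hm1 : -(c * ff X / 4 + D) ≤ D * ((m : ℝ) - v i) := by
    have := mul_le_mul_of_nonneg_left hm'.1 hD0.le
    nlinarith
  have hm2 : D * ((m : ℝ) - v i) ≤ c * ff X / 4 + D := by
    have := mul_le_mul_of_nonneg_left hm'.2 hD0.le
    nlinarith
  have hk1 : (1 : ℤ) ≤ D * (m - v i) + h := by
    have : (0 : ℝ) < ((D * (m - v i) + h : ℤ) : ℝ) := by
      push_cast
      linarith
    have : (0 : ℤ) < D * (m - v i) + h := by exact_mod_cast this
    omega
  have hk2 : D * (m - v i) + h ≤ (L : ℤ) := by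
    have : ((D * (m - v i) + h : ℤ) : ℝ) ≤ ((L : ℤ) : ℝ) := by
      push_cast
      linarith
    exact_mod_cast this
  obtain ⟨k, hk⟩ : ∃ k : ℕ, (k : ℤ) = D * (m - v i) + h := ⟨(D * (m - v i) + h).toNat, by omega⟩
  have hkIcc : k ∈ Finset.Icc 1 L := by
    rw [Finset.mem_Icc]
    omega
  have hkh : (k : ℤ) = D * (m - v i + h') := by
    rw [hk, hh]; push_cast; ring
  have hDk : D ∣ k := by
    have : (D : ℤ) ∣ (k : ℤ) := by rw [hkh]; exact dvd_mul_right _ _
    exact_mod_cast this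
  by_cases hkU : k ∈ U
  · have hkU' : k ∈ U' := Finset.mem_filter.mpr ⟨hkU, hDk⟩
    obtain ⟨p, hp, _, hpX, _, hd⟩ := hcovi ⟨k, hkU'⟩
    refine ⟨p, hp, hpX, ?_⟩
    have h5 : ((k / D : ℕ) : ℤ) = m - v i + h' := by
      rw [Int.natCast_div, hkh, Int.mul_ediv_cancel_left _ (by exact_mod_cast hD.ne')]
    have : v i - res p ⟨k, hkU'⟩ = m := by
      rw [hres]
      simp only
      rw [h5]
      ring
    rwa [this] at hd
  · have h5 : ∃ p : ℕ, p.Prime ∧ (p : ℝ) ≤ l / 10 ∧ k ≡ b p [MOD p] := by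
      by_contra hcon
      push Not at hcon
      exact hkU (Finset.mem_filter.mpr ⟨hkIcc, hcon⟩)
    obtain ⟨p, hp, hpl, hkb⟩ := h5
    refine ⟨p, hp, hpl.trans h3, ?_⟩
    have hpD : ¬ p ∣ D := by
      intro hpD
      have h6 : b p ≡ 0 [MOD p] := hkb.symm.trans (Nat.modEq_zero_iff_dvd.2 (hpD.trans hDk))
      have h7 := Nat.modEq_zero_iff_dvd.1 h6
      have h8 := hb1 p hp hpl
      have := Nat.le_of_dvd (by omega) h7
      omega
    have hpS := hSmem p hp hpl hpD
    have h6 : (p : ℤ) ∣ (b0 : ℤ) + ((b p : ℤ) + ((p : ℤ) - 1) * h) := by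
      have h7 := Int.natCast_dvd_natCast.mpr (hb0 p hpS)
      push_cast [Nat.cast_sub hp.one_le] at h7
      exact h7
    have hpP : (p : ℤ) ∣ (P : ℤ) := Int.natCast_dvd_natCast.mpr (Finset.dvd_prod_of_mem _ hpS)
    have h7 : (p : ℤ) ∣ v i - r0 := dvd_trans hpP hi.2
    have h8 : (p : ℤ) ∣ (k : ℤ) - b p := by
      have := (Nat.modEq_iff_dvd.mp hkb)
      rw [← neg_sub]
      exact (dvd_neg).mpr this
    have h9 : (D : ℤ) * m = D * (v i - r0) + ((b0 : ℤ) + ((b p : ℤ) + ((p : ℤ) - 1) * h)) +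
        ((k : ℤ) - b p) - p * h - wP * P * b0 := by
      rw [hk, hr0]
      linear_combination (b0 : ℤ) * huw0
    have h10 : (p : ℤ) ∣ (D : ℤ) * m := by
      rw [h9]
      refine dvd_sub (dvd_sub (dvd_add (dvd_add (h7.mul_left _) h6) h8) (Dvd.intro _ rfl)) ?_
      exact (hpP.mul_left _).mul_right _
    rcases (Nat.prime_iff_prime_int.mp hp).dvd_or_dvd h10 with h11 | h11
    · exact absurd (Int.natCast_dvd_natCast.mp h11) hpD
    · exact h11

end Pool.Agent.U602.AU
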