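import Pool.Agent.U602.AU.CritD

set_option autoImplicit false

/-! The covering criterion for families of integers, from exponential sums over the rationals
`h / q` with `q` prime to `D`. -/

namespace Pool.Agent.U602.AU

open Finset Filter
open Pool.Agent.H469R2.NK (e norm_e e_add)
open Pool.Agent.W147.PS (ff ff_compare ev_pow)
open Pool.Agent.TH915.PW (class_le)

/-- A finite family of integers whose exponential sums at the small rationals `h / q`, `q` prime to
`D`, save a power of `M` has a member without primes at distance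
`κ log M (log₂ M)² log₄ M / (log₃ M)²`. -/
theorem critD_int (D : ℕ) (hD : 0 < D) (η : ℝ) (h0 : 0 < η) (h1 : η ≤ 1) :
    ∃ κ : ℝ, 0 < κ ∧ ∀ᶠ M : ℝ in atTop,
    ∀ (ι : Type) (s : Finset ι) (v : ι → ℤ), s.Nonempty → (∀ i ∈ s, M ≤ v i) →
    (∀ q h : ℕ, (q : ℝ) ≤ M ^ η → q.Coprime D → 1 ≤ h → h < q →
      ‖∑ i ∈ s, e ((h : ℝ) / q * v i)‖ ≤ s.card * M ^ (-η)) →
    ∃ i ∈ s, ∀ q : ℕ, q.Prime → κ * ff M < |(q : ℝ) - v i| := by
  obtain ⟨κ, hκ, X₀, hc⟩ := critD D hD
  refine ⟨κ * (η / 32), by positivity, ?_⟩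
  filter_upwards [ff_compare η h0 h1, (tendsto_rpow_atTop h0).eventually_ge_atTop (max X₀ 1),
    eventually_ge_atTop (1 : ℝ), Pool.Agent.H256R2.SC.ev_log_sq, ev_pow (1 / 10) 1 4 (by norm_num)]
    with M hM hMX hM1 hlog hM10
  intro ι s v hs hv hE
  have hM0 : 0 < M := by linarith
  obtain ⟨hfl, hcr⟩ := hc (M ^ η) ((le_max_left _ _).trans hMX)
  have hX1 : 1 ≤ M ^ η := (le_max_right _ _).trans hMX
  have hXM : M ^ η ≤ M := by
    calc M ^ η ≤ M ^ (1 : ℝ) := Real.rpow_le_rpow_of_exponent_le hM1 h1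
      _ = M := Real.rpow_one M
  have hpX : (M ^ η) ^ (1 / 10 : ℝ) ≤ M / 4 := by
    rw [Real.rpow_one] at hM10
    have : (M ^ η) ^ (1 / 10 : ℝ) ≤ M ^ (1 / 10 : ℝ) :=
      Real.rpow_le_rpow (by positivity) hXM (by norm_num)
    linarith
  have hN : (0 : ℝ) < s.card := by exact_mod_cast hs.card_pos
  obtain ⟨i, hi, hi2⟩ := hcr ι s v hs (by
    intro q hq hqX hqD r
    refine (class_le s v q hq (s.card * M ^ (-η)) (by positivity) ?_ r).trans ?_
    · intro h hh1 hh2
      apply hE q h _ hqD hh1 hh2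
      refine hqX.trans ?_
      calc (M ^ η) ^ (2 / 5 : ℝ) ≤ (M ^ η) ^ (1 : ℝ) :=
            Real.rpow_le_rpow_of_exponent_le hX1 (by norm_num)
        _ = _ := Real.rpow_one _
    · apply mul_le_mul_of_nonneg_left _ hN.le
      rw [← Real.rpow_mul hM0.le]
      apply Real.rpow_le_rpow_of_exponent_le hM1
      linarith)
  have h5 := (hM.2 (M ^ η) le_rfl (by
    calc M ^ η ≤ M ^ (2 : ℝ) := Real.rpow_le_rpow_of_exponent_le hM1 (by linarith)
      _ = M ^ 2 := by norm_num)).1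
  have h6 : κ * (η / 32) * ff M ≤ κ * Pool.Agent.H256R2.SC.ff (M ^ η) := by
    calc κ * (η / 32) * ff M = κ * (η / 32 * ff M) := by ring
      _ ≤ _ := mul_le_mul_of_nonneg_left h5 hκ.le
  refine ⟨i, hi, fun q hq => ?_⟩
  by_contra hcon
  push Not at hcon
  obtain ⟨p, hp, hpX', hpd⟩ := hi2 q (by
    push_cast
    linarith)
  have h7 : p = q := (Nat.prime_dvd_prime_iff_eq hp hq).mp (by exact_mod_cast hpd)
  rw [h7] at hpX'
  have h8 := hv i hi
  have h9 := (abs_le.mp hcon).1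
  have h10 : (Real.log (M ^ η)) ^ 2 ≤ (Real.log M) ^ 2 := by
    rw [Real.log_rpow hM0]
    have := Real.log_nonneg hM1
    apply pow_le_pow_left₀ (by positivity)
    nlinarith
  linarith

end Pool.Agent.U602.AU
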