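import Pool.Agent.U602.AU.Bound
import Pool.Agent.U602.AU.CritDInt

set_option autoImplicit false
set_option linter.unusedSectionVars false

/-! Record gaps around the numbers which lead an automaton from one state to another. -/

namespace Pool.Agent.U602.AU

open Finset Filter Topology
open Pool.Agent.H469R2.NK (e norm_e e_add e_zero)
open Pool.Agent.W147.PS (ff ff_compare ev_pow)

section

variable {Q : Type} [Fintype Q] {b : ℕ} {δ : ℕ → Q → Q}

open scoped Classical in
/-- many numbers lead from `x` to `y` -/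
lemma card_ge (hfull : ∀ x z : Q, ∃ d < b, δ d x = z) (K : ℕ) (x y : Q) :
    b ^ K ≤ ((range (b ^ (K + 1))).filter (fun m => T b δ (K + 1) m x = y)).card := by
  choose d hd hdz using hfull
  have h : (range (b ^ K)).card ≤
      ((range (b ^ (K + 1))).filter (fun m => T b δ (K + 1) m x = y)).card := by
    apply card_le_card_of_injOn (fun m => b * m + d (T b δ K m x) y)
    · intro m hm
      have hm' : m < b ^ K := by simpa using hm
      simp only [coe_filter, mem_range, Set.mem_ofPred_eq]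
      refine ⟨?_, ?_⟩
      · have h1 := hd (T b δ K m x) y
        calc b * m + d (T b δ K m x) y < b * m + b := by omega
          _ = b * (m + 1) := by ring
          _ ≤ b * b ^ K := Nat.mul_le_mul_left _ hm'
          _ = b ^ (K + 1) := by rw [pow_succ']
      · rw [T_succ' K m _ (hd _ _), hdz]
    · intro m _ m' _ hmm
      have h1 := hd (T b δ K m x) y
      have h2 := hd (T b δ K m' x) y
      have hb : 0 < b := by omega
      simp only at hmm
      have h3 : (b * m + d (T b δ K m x) y) / b = (b * m' + d (T b δ K m' x) y) / b := by rw [hmm]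
      rw [Nat.mul_add_div hb, Nat.mul_add_div hb, Nat.div_eq_of_lt h1, Nat.div_eq_of_lt h2] at h3
      omega
  rwa [card_range] at h

/-- record gaps around the numbers which lead the automaton from `x` to `y` -/
theorem loc (hb : 2 ≤ b) (hfull : ∀ x z : Q, ∃ d < b, δ d x = z) (ε : ℝ) (hε : 0 < ε) :
    ∃ κ : ℝ, 0 < κ ∧ ∀ᶠ M : ℝ in atTop, ∀ L n : ℕ, M ^ ε ≤ (b : ℝ) ^ (L + L) →
      M ≤ n * (b : ℝ) ^ (L + L) → ∀ x y : Q, ∃ m < b ^ (L + L), T b δ (L + L) m x = y ∧
        ∀ q : ℕ, q.Prime → κ * ff M < |(q : ℝ) - ((b ^ (L + L) * n + m : ℕ) : ℝ)| := by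
  classical
  obtain ⟨C, a, hC, ha0, ha1, hW⟩ := auto_sum (δ := δ) hb hfull
  have hbR : (2 : ℝ) ≤ b := by exact_mod_cast hb
  have hlb : 0 < Real.log b := Real.log_pos (by linarith)
  have hla : Real.log a < 0 := Real.log_neg ha0 ha1
  set α : ℝ := -Real.log a / Real.log b with hα
  have hα0 : 0 < α := div_pos (by linarith) hlb
  have hab : ∀ L : ℕ, a ^ L = ((b : ℝ) ^ (L + L)) ^ (-(α / 2)) := by
    intro L
    rw [← Real.rpow_natCast a, ← Real.rpow_natCast (b : ℝ), ← Real.rpow_mul (by linarith),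
      Real.rpow_def_of_pos ha0, Real.rpow_def_of_pos (by linarith)]
    congr 1
    rw [hα]
    push_cast
    field_simp
    ring
  have hbL2 : ∀ L : ℕ, (b : ℝ) ^ L = (b : ℝ) ^ (L + L) * ((b : ℝ) ^ (L + L)) ^ (-(1 / 2) : ℝ) := by
    intro L
    rw [← Real.rpow_natCast (b : ℝ) (L + L), ← Real.rpow_natCast (b : ℝ) L,
      ← Real.rpow_mul (by linarith), ← Real.rpow_add (by linarith)]
    congr 1
    push_cast
    ring
  set η : ℝ := min 1 (min (ε * α / 8) (ε / 8)) with hη
  have hη0 : 0 < η := by rw [hη]; positivity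
  have hη1 : η ≤ 1 := min_le_left _ _
  have hη2 : η ≤ ε * α / 8 := (min_le_right _ _).trans (min_le_left _ _)
  have hη3 : η ≤ ε / 8 := (min_le_right _ _).trans (min_le_right _ _)
  set D : ℕ := b * (Fintype.card Q).factorial with hD
  have hD0 : 0 < D := Nat.mul_pos (by omega) (Nat.factorial_pos _)
  obtain ⟨κ, hκ, hcrit⟩ := critD_int D hD0 η hη0 hη1
  refine ⟨κ, hκ, ?_⟩
  filter_upwards [hcrit, eventually_ge_atTop (1 : ℝ),
    ev_pow (-(ε * α / 2)) (-η) (2 * C * b) (by nlinarith [mul_pos hε hα0]),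
    ev_pow (η - ε / 2) (-η) (2 * C * b) (by linarith),
    (tendsto_rpow_atTop hε).eventually_ge_atTop 2] with M hM hM1 hMa hMb hM2
  intro L n hL hn x y
  have hM0 : 0 < M := by linarith
  set B : ℝ := (b : ℝ) ^ (L + L) with hB
  have hB0 : 0 < B := by positivity
  have hL1 : 1 ≤ L := by
    by_contra hlt
    have : L = 0 := by omega
    rw [hB, this] at hL
    norm_num at hL
    linarith
  obtain ⟨K, hK⟩ : ∃ K, L + L = K + 1 := ⟨L + L - 1, by omega⟩
  set s : Finset ℕ := (range (b ^ (L + L))).filter (fun m => T b δ (L + L) m x = y) with hs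
  have hcard : b ^ K ≤ s.card := by
    rw [hs, hK]
    exact card_ge hfull K x y
  have hcardR : B / b ≤ s.card := by
    have h1 : B / b = (b : ℝ) ^ K := by
      rw [hB, hK, pow_succ, mul_div_cancel_right₀ _ (by linarith)]
    rw [h1]
    exact_mod_cast hcard
  have hsne : s.Nonempty := by
    rw [← card_pos]
    have : 0 < b ^ K := by positivity
    omega
  obtain ⟨m, hm, hgap⟩ := hM ℕ s (fun m => ((b ^ (L + L) * n + m : ℕ) : ℤ)) hsne (by
    intro m _
    push_cast
    have : (0 : ℝ) ≤ m := Nat.cast_nonneg m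
    have e1 : (b : ℝ) ^ (L + L) * n = n * B := by rw [hB]; ring
    linarith) (by
    intro q h hq hqD hh1 hh2
    have hq0 : (0 : ℝ) < q := by
      have : 0 < q := by omega
      exact_mod_cast this
    set φ : Q → ℂ := fun z => if z = y then 1 else 0 with hφ
    have hφn : ‖φ‖ ≤ 1 := by
      rw [pi_norm_le_iff_of_nonneg zero_le_one]
      intro z
      rw [hφ]
      simp only
      split_ifs <;> simp
    have e1 : ∑ m ∈ s, e ((h : ℝ) / q * (((b ^ (L + L) * n + m : ℕ) : ℤ) : ℝ)) =
        e ((h : ℝ) / q * ((b : ℝ) ^ (L + L) * n)) * W b δ (L + L) ((h : ℝ) / q) φ x := by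
      rw [W_apply, mul_sum, hs, sum_filter]
      refine sum_congr rfl fun m _ => ?_
      rw [hφ]
      simp only
      split_ifs with h1
      · rw [mul_one, ← e_add]
        congr 1
        push_cast
        ring
      · simp
    rw [e1, norm_mul, norm_e, one_mul]
    refine (norm_le_pi_norm _ x).trans ?_
    refine (hW L q h φ hh1 hh2 hqD).trans ?_
    have e2 : a ^ L ≤ M ^ (-(ε * α / 2)) := by
      rw [hab L]
      have h1 : -(ε * α / 2) = ε * (-(α / 2)) := by ring
      rw [h1, Real.rpow_mul hM0.le]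
      exact Real.rpow_le_rpow_of_nonpos (by positivity) hL (by linarith)
    have e3 : q * (b : ℝ) ^ L ≤ B * M ^ (η - ε / 2) := by
      rw [hbL2 L]
      have h1 : η - ε / 2 = η + ε * (-(1 / 2)) := by ring
      rw [h1, Real.rpow_add hM0, Real.rpow_mul hM0.le]
      have h2 : B ^ (-(1 / 2) : ℝ) ≤ (M ^ ε) ^ (-(1 / 2) : ℝ) :=
        Real.rpow_le_rpow_of_nonpos (by positivity) hL (by norm_num)
      calc (q : ℝ) * (B * B ^ (-(1 / 2) : ℝ)) = B * (q * B ^ (-(1 / 2) : ℝ)) := by ring
        _ ≤ B * (M ^ η * (M ^ ε) ^ (-(1 / 2) : ℝ)) := by gcongr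
    have e4 : C * (a ^ L * B + q * (b : ℝ) ^ L) * ‖φ‖ ≤
        C * (M ^ (-(ε * α / 2)) * B + B * M ^ (η - ε / 2)) * 1 := by
      gcongr
    refine e4.trans ?_
    calc C * (M ^ (-(ε * α / 2)) * B + B * M ^ (η - ε / 2)) * 1 =
        B / b * (2 * C * b * M ^ (-(ε * α / 2)) + 2 * C * b * M ^ (η - ε / 2)) / 2 := by
          field_simp
      _ ≤ B / b * (M ^ (-η) + M ^ (-η)) / 2 := by gcongr
      _ = B / b * M ^ (-η) := by ring
      _ ≤ s.card * M ^ (-η) := by gcongr)
  rw [hs, mem_filter, mem_range] at hm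
  refine ⟨m, hm.1, hm.2, ?_⟩
  intro q hq
  have := hgap q hq
  push_cast at this ⊢
  exact this

end

end Pool.Agent.U602.AU
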