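import Pool.Agent.U602.AU.Auto

set_option autoImplicit false
set_option linter.unusedSectionVars false

/-! Walks in a finite automaton: recurrent states, classes. -/

namespace Pool.Agent.U602.AU

open Finset

/-- `z` can be reached from `x` by reading `j` digits -/
def Rc {Q : Type} (b : ℕ) (δ : ℕ → Q → Q) (j : ℕ) (x z : Q) : Prop := ∃ m, T b δ j m x = z

/-- `y` can be reached from every state that can be reached from `y` -/
def Recu {Q : Type} (b : ℕ) (δ : ℕ → Q → Q) (y : Q) : Prop :=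
  ∀ (j : ℕ) (z : Q), Rc b δ j y z → ∃ k, Rc b δ k z y

section

variable {Q : Type} {b : ℕ} {δ : ℕ → Q → Q}

lemma Rc_zero (x : Q) : Rc b δ 0 x x := ⟨0, rfl⟩

lemma Rc_total (j : ℕ) (x : Q) : ∃ z, Rc b δ j x z := ⟨_, 0, rfl⟩

lemma Rc_add (hb : 0 < b) {j k : ℕ} {x y z : Q} (h1 : Rc b δ j x y) (h2 : Rc b δ k y z) :
    Rc b δ (j + k) x z := by
  obtain ⟨m, rfl⟩ := h1
  obtain ⟨r, rfl⟩ := h2
  refine ⟨b ^ k * m + r % b ^ k, ?_⟩
  rw [T_add hb _ _ _ _ (Nat.mod_lt _ (by positivity)), T_mod]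

lemma Rc_mul (hb : 0 < b) {j : ℕ} {x : Q} (h : Rc b δ j x x) (c : ℕ) : Rc b δ (j * c) x x := by
  induction c with
  | zero => exact Rc_zero x
  | succ c ih => exact Rc_add hb ih h

lemma Rc_lt (hb : 0 < b) {j : ℕ} {x z : Q} (h : Rc b δ j x z) : ∃ m < b ^ j, T b δ j m x = z := by
  obtain ⟨m, rfl⟩ := h
  exact ⟨m % b ^ j, Nat.mod_lt _ (by positivity), T_mod _ _ _⟩

lemma Recu_of_Rc (hb : 0 < b) {j : ℕ} {y z : Q} (hy : Recu b δ y) (h : Rc b δ j y z) :
    Recu b δ z := by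
  intro i w hw
  obtain ⟨k, hk⟩ := hy (j + i) w (Rc_add hb h hw)
  exact ⟨k + j, Rc_add hb hk h⟩

end

section

variable {Q : Type} [Fintype Q] {b : ℕ} {δ : ℕ → Q → Q}

open scoped Classical in
/-- a recurrent state can be reached from every state -/
lemma exists_recu (hb : 0 < b) (x : Q) : ∃ (j : ℕ) (z : Q), Rc b δ j x z ∧ Recu b δ z := by
  let reach : Q → Finset Q := fun z => univ.filter (fun w => ∃ j, Rc b δ j z w)
  have hmem : ∀ z w, w ∈ reach z ↔ ∃ j, Rc b δ j z w := by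
    intro z w
    simp [reach]
  obtain ⟨z, hz, hmin⟩ := exists_min_image (reach x) (fun z => (reach z).card)
    ⟨x, (hmem x x).2 ⟨0, Rc_zero x⟩⟩
  obtain ⟨j, hj⟩ := (hmem x z).1 hz
  refine ⟨j, z, hj, ?_⟩
  intro i w hw
  have h1 : reach w ⊆ reach z := by
    intro u hu
    obtain ⟨k, hk⟩ := (hmem w u).1 hu
    exact (hmem z u).2 ⟨i + k, Rc_add hb hw hk⟩
  have h2 := hmin w ((hmem x w).2 ⟨j + i, Rc_add hb hj hw⟩)
  have h3 := eq_of_subset_of_card_le h1 h2
  have h4 : z ∈ reach w := by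
    rw [h3]
    exact (hmem z z).2 ⟨0, Rc_zero z⟩
  exact (hmem w z).1 h4

/-- a recurrent state is reached from every state by a bounded number of digits -/
lemma exists_recu_unif (hb : 0 < b) :
    ∃ J : ℕ, ∀ x : Q, ∃ m < b ^ J, Recu b δ (T b δ J m x) := by
  choose j z hz hr using exists_recu (δ := δ) hb
  refine ⟨∑ x : Q, j x, ?_⟩
  intro x
  have h1 : j x ≤ ∑ x : Q, j x := single_le_sum (fun _ _ => Nat.zero_le _) (mem_univ x)
  obtain ⟨k, hk⟩ := Nat.exists_eq_add_of_le h1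
  obtain ⟨w, hw⟩ := Rc_total (b := b) (δ := δ) k (z x)
  have h2 : Rc b δ (∑ x : Q, j x) x w := by
    rw [hk]
    exact Rc_add hb (hz x) hw
  obtain ⟨m, hm, hmw⟩ := Rc_lt hb h2
  refine ⟨m, hm, ?_⟩
  rw [hmw]
  exact Recu_of_Rc hb (hr x) hw

open scoped Classical in
/-- few numbers lead to a state which is not recurrent -/
lemma nonrec_count (hb : 0 < b) (J : ℕ) (hJ : ∀ x : Q, ∃ m < b ^ J, Recu b δ (T b δ J m x))
    (j : ℕ) (x : Q) :
    ((range (b ^ (J * j))).filter (fun m => ¬ Recu b δ (T b δ (J * j) m x))).card ≤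
      (b ^ J - 1) ^ j := by
  induction j with
  | zero =>
    rw [pow_zero]
    refine (card_filter_le _ _).trans ?_
    simp
  | succ j ih =>
    choose g hg hgr using hJ
    have h1 : ((range (b ^ (J * (j + 1)))).filter
        (fun m => ¬ Recu b δ (T b δ (J * (j + 1)) m x))).card ≤
        (((range (b ^ (J * j))).filter (fun m => ¬ Recu b δ (T b δ (J * j) m x))).sigma
          (fun m => (range (b ^ J)).erase (g (T b δ (J * j) m x)))).card := by
      apply card_le_card_of_injOn (fun m => ⟨m / b ^ J, m % b ^ J⟩)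
      · intro m hm
        have hm1 : m < b ^ (J * (j + 1)) ∧ ¬ Recu b δ (T b δ (J * (j + 1)) m x) := by simpa using hm
        have hbJ : 0 < b ^ J := by positivity
        have h2 : T b δ (J * (j + 1)) m x =
            T b δ J (m % b ^ J) (T b δ (J * j) (m / b ^ J) x) := by
          rw [← T_add hb _ _ _ _ (Nat.mod_lt _ hbJ), Nat.div_add_mod]
          congr 1
        rw [h2] at hm1
        have h3 : m / b ^ J < b ^ (J * j) := by
          rw [Nat.div_lt_iff_lt_mul hbJ, ← pow_add]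
          exact hm1.1
        have h4 : ¬ Recu b δ (T b δ (J * j) (m / b ^ J) x) := by
          intro h5
          exact hm1.2 (Recu_of_Rc hb h5 ⟨_, rfl⟩)
        have h5 : m % b ^ J ≠ g (T b δ (J * j) (m / b ^ J) x) := by
          intro h6
          apply hm1.2
          rw [h6]
          exact hgr _
        simp only [coe_sigma, Set.mem_sigma_iff, coe_filter, mem_range, coe_erase, Set.mem_sdiff,
          coe_range]
        exact ⟨⟨h3, h4⟩, Nat.mod_lt _ hbJ, h5⟩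
      · intro m _ m' _ hmm
        simp only [Sigma.mk.injEq, heq_eq_eq] at hmm
        rw [← Nat.div_add_mod m (b ^ J), ← Nat.div_add_mod m' (b ^ J), hmm.1, hmm.2]
    refine h1.trans ?_
    rw [card_sigma, pow_succ]
    have h2 : ∀ m ∈ (range (b ^ (J * j))).filter (fun m => ¬ Recu b δ (T b δ (J * j) m x)),
        ((range (b ^ J)).erase (g (T b δ (J * j) m x))).card ≤ b ^ J - 1 := by
      intro m _
      rw [card_erase_of_mem (mem_range.2 (hg _)), card_range]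
    refine (sum_le_card_nsmul _ _ _ h2).trans ?_
    rw [smul_eq_mul]
    exact Nat.mul_le_mul_right _ ih

open scoped Classical in
/-- the class of a recurrent state -/
lemma exists_class (hb : 0 < b) (y : Q) (hy : Recu b δ y) :
    ∃ t : ℕ, 1 ≤ t ∧ ∃ S : Set Q, y ∈ S ∧ (∀ x ∈ S, ∀ z, Rc b δ t x z → z ∈ S) ∧
      ∀ x ∈ S, ∀ z ∈ S, Rc b δ t x z := by
  let R : ℕ → Finset Q := fun k => univ.filter (fun z => ∃ j, Rc b δ (k * j) y z)
  have hmem : ∀ k z, z ∈ R k ↔ ∃ j, Rc b δ (k * j) y z := by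
    intro k z
    simp [R]
  -- return to `y` in a multiple of `k` steps
  have hret : ∀ k : ℕ, 1 ≤ k → ∀ z ∈ R k, ∃ p, Rc b δ (k * p) z y := by
    intro k hk z hz
    obtain ⟨j, hj⟩ := (hmem k z).1 hz
    obtain ⟨i, hi⟩ := hy _ z hj
    have h1 : Rc b δ (i + k * j) z z := Rc_add hb hi hj
    have h2 : Rc b δ ((i + k * j) * (k - 1) + i) z y := Rc_add hb (Rc_mul hb h1 _) hi
    refine ⟨i + k * j - j, ?_⟩
    have h3 : (i + k * j) * (k - 1) + i = k * (i + k * j - j) := by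
      obtain ⟨k', rfl⟩ : ∃ k', k = k' + 1 := ⟨k - 1, by omega⟩
      rw [Nat.add_sub_cancel]
      have h4 : i + (k' + 1) * j - j = i + k' * j := by
        rw [add_mul, one_mul]
        omega
      rw [h4]
      ring
    rwa [h3] at h2
  -- minimal class
  obtain ⟨k, hk1, hkmin⟩ : ∃ k : ℕ, 1 ≤ k ∧ ∀ k' : ℕ, 1 ≤ k' → (R k).card ≤ (R k').card := by
    have hne : ∃ n, ∃ k : ℕ, 1 ≤ k ∧ (R k).card = n := ⟨_, 1, le_rfl, rfl⟩
    obtain ⟨k, hk, hkn⟩ := Nat.find_spec hne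
    refine ⟨k, hk, fun k' hk' => ?_⟩
    rw [hkn]
    exact Nat.find_min' hne ⟨k', hk', rfl⟩
  have heq : ∀ c : ℕ, 1 ≤ c → R (k * c) = R k := by
    intro c hc
    apply eq_of_subset_of_card_le
    · intro z hz
      obtain ⟨j, hj⟩ := (hmem _ z).1 hz
      exact (hmem _ z).2 ⟨c * j, by rwa [← mul_assoc]⟩
    · exact hkmin _ (Nat.mul_pos hk1 hc)
  -- closed walks of positive length
  have hloop : ∀ z ∈ R k, ∃ c : ℕ, 1 ≤ c ∧ Rc b δ (k * c) z z := by
    intro z hz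
    obtain ⟨j, hj⟩ := (hmem k z).1 hz
    have hzr : Recu b δ z := Recu_of_Rc hb hy hj
    obtain ⟨z1, hz1⟩ := Rc_total (b := b) (δ := δ) 1 z
    obtain ⟨i, hi⟩ := hzr 1 z1 hz1
    refine ⟨1 + i, by omega, ?_⟩
    have := Rc_mul hb (Rc_add hb hz1 hi) k
    rwa [mul_comm] at this
  have hloop' : ∀ z : Q, ∃ c : ℕ, 1 ≤ c ∧ (z ∈ R k → Rc b δ (k * c) z z) := by
    intro z
    by_cases hz : z ∈ R k
    · obtain ⟨c, hc, h⟩ := hloop z hz
      exact ⟨c, hc, fun _ => h⟩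
    · exact ⟨1, le_rfl, fun h => absurd h hz⟩
  choose c hc1 hc using hloop'
  set P : ℕ := ∏ z : Q, c z with hP
  have hP1 : 1 ≤ P := Nat.one_le_iff_ne_zero.2 (prod_ne_zero_iff.2 fun z _ => by
    have := hc1 z
    omega)
  set k₁ : ℕ := k * P with hk₁
  have hk₁1 : 1 ≤ k₁ := Nat.mul_pos hk1 hP1
  have hRk₁ : R k₁ = R k := heq P hP1
  have hl : ∀ z ∈ R k, ∀ n : ℕ, Rc b δ (k₁ * n) z z := by
    intro z hz n
    have h1 : c z ∣ P := dvd_prod_of_mem _ (mem_univ z)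
    obtain ⟨r, hr⟩ := h1
    have h2 := Rc_mul hb (hc z hz) (r * n)
    have h3 : k * c z * (r * n) = k₁ * n := by
      rw [hk₁, hr]; ring
    rwa [h3] at h2
  have hto' : ∀ z : Q, ∃ j : ℕ, z ∈ R k → Rc b δ (k₁ * j) y z ∧ Rc b δ (k₁ * j) z y := by
    intro z
    by_cases hz : z ∈ R k
    · have hz1 : z ∈ R k₁ := by rw [hRk₁]; exact hz
      obtain ⟨j, hj⟩ := (hmem _ z).1 hz1
      obtain ⟨p, hp⟩ := hret k₁ hk₁1 z hz1
      refine ⟨j + p, fun _ => ⟨?_, ?_⟩⟩
      · rw [mul_add]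
        exact Rc_add hb hj (hl z hz p)
      · rw [mul_add]
        exact Rc_add hb (hl z hz j) hp
    · exact ⟨0, fun h => absurd h hz⟩
  choose j hj using hto'
  set J : ℕ := ∑ z : Q, j z + 1 with hJ
  have hJle : ∀ z, j z ≤ J := by
    intro z
    have : j z ≤ ∑ z : Q, j z := single_le_sum (fun _ _ => Nat.zero_le _) (mem_univ z)
    omega
  have hyz : ∀ z ∈ R k, Rc b δ (k₁ * J) y z := by
    intro z hz
    obtain ⟨r, hr⟩ := Nat.exists_eq_add_of_le (hJle z)
    rw [hr, mul_add]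
    exact Rc_add hb (hj z hz).1 (hl z hz r)
  have hzy : ∀ z ∈ R k, Rc b δ (k₁ * J) z y := by
    intro z hz
    obtain ⟨r, hr⟩ := Nat.exists_eq_add_of_le (hJle z)
    rw [hr, mul_add, add_comm]
    exact Rc_add hb (hl z hz r) (hj z hz).2
  refine ⟨k₁ * J + k₁ * J, ?_, (R k : Set Q), ?_, ?_, ?_⟩
  · have : 1 ≤ k₁ * J := Nat.mul_pos hk₁1 (by omega)
    omega
  · exact (hmem k y).2 ⟨0, Rc_zero y⟩
  · intro x hx z hz
    have h1 := Rc_add hb (hyz x hx) hz
    have h2 : z ∈ R k₁ := (hmem k₁ z).2 ⟨J + (J + J), by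
      have : k₁ * (J + (J + J)) = k₁ * J + (k₁ * J + k₁ * J) := by ring
      rwa [this]⟩
    rw [hRk₁] at h2
    exact h2
  · intro x hx z hz
    exact Rc_add hb (hzy x hx) (hyz z hz)

end

end Pool.Agent.U602.AU
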